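import Pool.Agent.Helper53.Slit.Prob

/-!
The L-shaped corridor of the square lattice: definitions.

Coordinates `u = x + y`, `w = x - y`.  The domain is the quarter plane `u ≥ 0`, `w ≤ h + 1` without the
quadrant `u > L, w < 1`: two legs, one going down (width `L`), one going to the right (width `h`).
The crossing event: the top wall `w = h + 1` is joined to the right wall `u = L`, `w ≤ 1` of the lower leg.
-/

set_option autoImplicit false

namespace H47Perc.LN
open Finset Filter Topology SimpleGraph H47Perc.DS H47Perc.SL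
open Pool.Agent.Helper69.RSW (Up perc_half_eq P_restrict P_congr P_mono Dep P)

/-- the L-shaped corridor -/
def InL (L h : ℤ) (z : ℤ × ℤ) : Prop :=
  0 ≤ z.1 + z.2 ∧ z.1 - z.2 ≤ h + 1 ∧ ¬ (L < z.1 + z.2 ∧ z.1 - z.2 < 1)

open Classical in
/-- the truncated L-shaped corridor -/
noncomputable def dom (L h M : ℤ) : Finset (ℤ × ℤ) :=
  (box (-M) M (-M) M).filter (fun z => InL L h z ∧ z.1 + z.2 ≤ M ∧ |z.1 - z.2| ≤ M)

lemma mem_dom {L h M : ℤ} {z : ℤ × ℤ} : z ∈ dom L h M ↔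
    InL L h z ∧ z.1 + z.2 ≤ M ∧ |z.1 - z.2| ≤ M := by
  classical
  unfold dom
  rw [mem_filter, mem_box]
  constructor
  · exact fun h => h.2
  · intro h
    refine ⟨?_, h⟩
    have h1 := h.1.1
    have h2 := h.2.1
    have h3 := abs_le.1 h.2.2
    omega

/-- the edges of the truncated L-shaped corridor -/
noncomputable def lE (L h M : ℤ) : Finset (Sym2 (ℤ × ℤ)) := edgesIn (dom L h M)

/-- the target: the right wall of the lower leg -/
def Tg (L : ℤ) (z : ℤ × ℤ) : Prop := z.1 + z.2 = L ∧ z.1 - z.2 ≤ 1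

/-- the crossing event: the top wall is joined to the right wall of the lower leg -/
def CrL (L h : ℤ) (ω : Finset (Sym2 (ℤ × ℤ))) : Prop :=
  ∃ z z' : ℤ × ℤ, z.1 - z.2 = h + 1 ∧ Tg L z' ∧ Joined ω z z'

/-- the crossing probability of the truncated L-shaped corridor -/
noncomputable def pL (L h M : ℤ) : ℝ := P (lE L h M) (CrL L h)

/-- the last edge below the inner corner `(m+1, m)` (`u = 2m+1`, `w = 1`) -/
def e0 (m : ℕ) : Sym2 (ℤ × ℤ) := s(((m : ℤ), (m : ℤ)), ((m : ℤ) + 1, (m : ℤ)))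

/-- the exact crossing event: the edge `e0` below the inner corner may only be used as the last step of the
path -/
def CrX (m k : ℕ) (ω : Finset (Sym2 (ℤ × ℤ))) : Prop :=
  ∃ z z' : ℤ × ℤ, z.1 - z.2 = 2 * (k : ℤ) + 2 ∧ Joined (ω.erase (e0 m)) z z' ∧
    ((z'.1 + z'.2 = 2 * (m : ℤ) + 1 ∧ z'.1 - z'.2 < 1) ∨ (z' = ((m : ℤ), (m : ℤ)) ∧ e0 m ∈ ω))

/-- the probability of the exact crossing event in the truncated L-shaped corridor with `L = 2m+1`,
`h = 2k+1` -/
noncomputable def pX (m k : ℕ) (M : ℤ) : ℝ := P (lE (2 * m + 1) (2 * k + 1) M) (CrX m k)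

lemma crL_mono {L h : ℤ} {ω ω' : Finset (Sym2 (ℤ × ℤ))} (hω : ω ⊆ ω') (hc : CrL L h ω) :
    CrL L h ω' := by
  obtain ⟨z, z', h1, h2, h3⟩ := hc
  exact ⟨z, z', h1, h2, joined_mono hω h3⟩

lemma crX_mono {m k : ℕ} {ω ω' : Finset (Sym2 (ℤ × ℤ))} (hω : ω ⊆ ω') (hc : CrX m k ω) :
    CrX m k ω' := by
  obtain ⟨z, z', h1, h2, h3⟩ := hc
  refine ⟨z, z', h1, joined_mono (erase_subset_erase _ hω) h2, ?_⟩
  rcases h3 with h3 | ⟨h3, h4⟩
  · exact Or.inl h3
  · exact Or.inr ⟨h3, hω h4⟩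

lemma lE_mono {L h M M' : ℤ} (hM : M ≤ M') : lE L h M ⊆ lE L h M' := by
  intro e he
  refine edgesIn_mono ?_ he
  intro z hz
  rw [mem_dom] at hz ⊢
  exact ⟨hz.1, hz.2.1.trans hM, hz.2.2.trans hM⟩

/-- monotone events have monotone probabilities -/
lemma P_mono_up {F F' : Finset (Sym2 (ℤ × ℤ))} {A : Finset (Sym2 (ℤ × ℤ)) → Prop} (hF : F ⊆ F')
    (hA : ∀ ω ω', ω ⊆ ω' → A ω → A ω') : P F A ≤ P F' A := by
  classical
  have hD : Dep F (fun ω : Finset (Sym2 (ℤ × ℤ)) => A (ω ∩ F)) := by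
    intro S
    simp only
    rw [inter_assoc, inter_self]
  have h1 := P_restrict hF hD
  calc P F A = P F (fun ω => A (ω ∩ F)) := by
        apply P_congr
        intro S hS
        rw [inter_eq_left.2 hS]
    _ = _ := h1.symm
    _ ≤ _ := by
        apply P_mono
        intro S _ hc
        exact hA _ _ inter_subset_left hc

lemma pL_mono {L h M M' : ℤ} (hM : M ≤ M') : pL L h M ≤ pL L h M' :=
  P_mono_up (lE_mono hM) fun _ _ hω hc => crL_mono hω hc

lemma pX_mono {m k : ℕ} {M M' : ℤ} (hM : M ≤ M') : pX m k M ≤ pX m k M' :=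
  P_mono_up (lE_mono hM) fun _ _ hω hc => crX_mono hω hc

end H47Perc.LN
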