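import Pool.Agent.Helper63.J.Lower
import Pool.Agent.Helper45.LGeo.Defs

/-!
The L-shaped corridor: the law of the lower piece (the lower leg and the corner rectangle).
-/

set_option autoImplicit false

namespace H47Perc.LN
open Finset H47Perc.DS H47Perc.SL H47Perc.JJ

/-- the front at the level `x - y = 2t+1` -/
def fL (m t : ℕ) (i : ℕ) : ℤ × ℤ :=
  if i < m then ((i : ℤ) + t + 1, (i : ℤ) - t)
  else if i < m + t then (2 * (m : ℤ) + t - i, (i : ℤ) - t) else ((m : ℤ) + 1, (m : ℤ))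

/-- the front at the level `x - y = 2t+2` -/
def gL (m t : ℕ) (i : ℕ) : ℤ × ℤ :=
  if i ≤ m then ((i : ℤ) + t + 1, (i : ℤ) - t - 1) else fL m t (i - 1)

lemma fL_lt {m t i : ℕ} (h : i < m) : fL m t i = ((i : ℤ) + t + 1, (i : ℤ) - t) := if_pos h
lemma fL_mid {m t i : ℕ} (h : m ≤ i) (h' : i < m + t) :
    fL m t i = (2 * (m : ℤ) + t - i, (i : ℤ) - t) := by
  unfold fL
  rw [if_neg (by omega), if_pos h']
lemma fL_ge {m t i : ℕ} (h : m + t ≤ i) : fL m t i = ((m : ℤ) + 1, (m : ℤ)) := by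
  unfold fL
  rw [if_neg (by omega), if_neg (by omega)]
lemma gL_le {m t i : ℕ} (h : i ≤ m) : gL m t i = ((i : ℤ) + t + 1, (i : ℤ) - t - 1) := if_pos h
lemma gL_gt {m t i : ℕ} (h : m < i) : gL m t i = fL m t (i - 1) := if_neg (by omega)

lemma fL_zero (m : ℕ) : fL m 0 = fr m 0 := by
  funext i
  rw [fr_zero]
  by_cases h : i < m
  · rw [fL_lt h, min_eq_left (by exact_mod_cast h.le)]
    ext <;> simp
  · rw [fL_ge (by omega), min_eq_right (by exact_mod_cast (by omega : m ≤ i))]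

lemma fL_level (m t i : ℕ) : (fL m t i).1 - (fL m t i).2 ≤ 2 * t + 1 := by
  unfold fL
  split_ifs <;> simp only <;> omega

lemma gL_level (m t i : ℕ) : (gL m t i).1 - (gL m t i).2 ≤ 2 * t + 2 := by
  unfold gL
  split_ifs
  · simp only
    omega
  · have := fL_level m t (i - 1)
    omega

/-- the rectangle `0 ≤ u ≤ 2m`, `a ≤ w ≤ b` -/
noncomputable def rl (m : ℕ) (a b : ℤ) : Finset (ℤ × ℤ) :=
  (reg m a b).filter (fun z => z.1 + z.2 ≤ 2 * m)

lemma mem_rl {m : ℕ} {a b : ℤ} {z : ℤ × ℤ} : z ∈ rl m a b ↔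
    0 ≤ z.1 + z.2 ∧ z.1 + z.2 ≤ 2 * m ∧ a ≤ z.1 - z.2 ∧ z.1 - z.2 ≤ b := by
  unfold rl
  rw [mem_filter, mem_reg]
  constructor
  · rintro ⟨h1, h2⟩
    exact ⟨h1.1, h2, h1.2.2⟩
  · rintro ⟨h1, h2, h3⟩
    exact ⟨⟨h1, by omega, h3⟩, h2⟩

/-- the edges between the levels `2t+1` and `2t+2` -/
def V1 (m t : ℕ) : Finset (Sym2 (ℤ × ℤ)) :=
  (Ico 1 (1 + 2 * m)).image (edU (cns ((t : ℤ) + 1, -(t : ℤ) - 1) (fL m t)) (gL m t))

/-- the edges between the levels `2t+2` and `2t+3` -/
def V2 (m t : ℕ) : Finset (Sym2 (ℤ × ℤ)) :=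
  (Ico 0 (0 + 2 * m)).image (edU (gL m t) (fL m (t + 1)))

lemma admL1 (m t : ℕ) {F : Finset (Sym2 (ℤ × ℤ))} (hF : ∀ u v, s(u, v) ∈ F → u.1 - u.2 ≤ 2 * t + 1) :
    AdmU (LW m) (cns ((t : ℤ) + 1, -(t : ℤ) - 1) (fL m t)) (gL m t) 1 (1 + 2 * m) F where
  h3 := by
    intro r h1 h2 h
    unfold edU at h
    have := hF _ _ h
    rw [gL_le (by omega)] at this
    simp only at this
    omega
  h3' := by
    intro r r' h1 h2 h1' h2' hne he
    unfold edU cns at he
    rw [gL_le (by omega), gL_le (by omega), if_neg (by omega), if_neg (by omega), fL_lt (by omega),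
      fL_lt (by omega), Sym2.eq_iff, Prod.mk.injEq, Prod.mk.injEq, Prod.mk.injEq, Prod.mk.injEq] at he
    omega
  h4 := by
    intro j h1 h2
    rw [gL_le (by omega)]
    refine ⟨?_, ?_, ?_, ?_⟩
    · intro u h
      have := hF _ _ h
      simp only at this
      omega
    · rw [mem_LW]
      simp only
      omega
    · intro k hk h
      rw [gL_le (by omega), Prod.mk.injEq] at h
      omega
    · intro k h
      unfold cns at h
      by_cases hk : k = 0
      · rw [if_pos hk, Prod.mk.injEq] at h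
        omega
      · rw [if_neg hk] at h
        have := fL_level m t (k - 1)
        rw [h] at this
        simp only at this
        omega

lemma admL2 (m t : ℕ) {F : Finset (Sym2 (ℤ × ℤ))} (hF : ∀ u v, s(u, v) ∈ F → u.1 - u.2 ≤ 2 * t + 2) :
    AdmU (LW m) (gL m t) (fL m (t + 1)) 0 (0 + 2 * m) F where
  h3 := by
    intro r h1 h2 h
    unfold edU at h
    have := hF _ _ h
    rw [fL_lt (by omega)] at this
    push_cast at this
    omega
  h3' := by
    intro r r' h1 h2 h1' h2' hne he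
    unfold edU at he
    rw [fL_lt (by omega), fL_lt (by omega), gL_le (by omega), gL_le (by omega), Sym2.eq_iff,
      Prod.mk.injEq, Prod.mk.injEq, Prod.mk.injEq, Prod.mk.injEq] at he
    push_cast at he
    omega
  h4 := by
    intro j h1 h2
    rw [fL_lt (by omega)]
    refine ⟨?_, ?_, ?_, ?_⟩
    · intro u h
      have := hF _ _ h
      push_cast at this
      omega
    · rw [mem_LW]
      push_cast
      omega
    · intro k hk h
      rw [fL_lt (by omega), Prod.mk.injEq] at h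
      omega
    · intro k h
      have := gL_level m t k
      rw [h] at this
      push_cast at this
      omega

lemma stgL1_start (m t : ℕ) : stgU (cns ((t : ℤ) + 1, -(t : ℤ) - 1) (fL m t)) (gL m t) 1 =
    cns ((t : ℤ) + 1, -(t : ℤ) - 1) (fL m t) := by
  funext k
  unfold stgU
  by_cases hk : k = 0
  · subst hk
    rw [if_pos (by omega), gL_le (by omega)]
    unfold cns
    rw [if_pos rfl]
    ext <;> simp
  · rw [if_neg (by omega)]

lemma stgL1_end (m t : ℕ) : stgU (cns ((t : ℤ) + 1, -(t : ℤ) - 1) (fL m t)) (gL m t)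
    (1 + 2 * m) = gL m t := by
  funext k
  unfold stgU
  by_cases hk : k ≤ m
  · rw [if_pos (by omega)]
  · rw [if_neg (by omega), gL_gt (by omega)]
    unfold cns
    rw [if_neg (by omega)]

lemma stgL2_start (m t : ℕ) : stgU (gL m t) (fL m (t + 1)) 0 = gL m t := by
  funext k
  unfold stgU
  rw [if_neg (by omega)]

lemma stgL2_end (m t : ℕ) : stgU (gL m t) (fL m (t + 1)) (0 + 2 * m) = fL m (t + 1) := by
  funext k
  unfold stgU
  by_cases hk : k < m
  · rw [if_pos (by omega)]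
  · rw [if_neg (by omega)]
    by_cases hm : k = m
    · subst hm
      rw [gL_le le_rfl, fL_mid le_rfl (by omega)]
      ext
      · simp only
        push_cast
        ring
      · simp only
        push_cast
        ring
    · rw [gL_gt (by omega)]
      by_cases h1 : k < m + (t + 1)
      · rw [fL_mid (by omega) h1, fL_mid (by omega) (by omega)]
        ext <;> simp only <;> push_cast <;> omega
      · rw [fL_ge (by omega), fL_ge (by omega)]

/-- one double row of the corner rectangle, from the left to the right -/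
noncomputable def DL (m : ℕ) : IP.M →ₗ[ℝ] IP.M :=
  upR 0 (2 * m) ∘ₗ upR 1 (2 * m) ∘ₗ IP.In 0

lemma rowL1 (m t : ℕ) {F : Finset (Sym2 (ℤ × ℤ))} (hF : ∀ u v, s(u, v) ∈ F → u.1 - u.2 ≤ 2 * t + 1) :
    upR 1 (2 * m) (IP.In 0 (lawA (LW m) F (fL m t))) = lawA (LW m) (F ∪ V1 m t) (gL m t) := by
  have h1 : lawA (LW m) F (cns ((t : ℤ) + 1, -(t : ℤ) - 1) (fL m t)) =
      IP.In 0 (lawA (LW m) F (fL m t)) := by
    apply lawA_ins
    · intro u h
      have := hF _ _ h
      simp only at this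
      omega
    · rw [mem_LW]
      simp only
      omega
    · intro k h
      have := fL_level m t k
      rw [h] at this
      simp only at this
      omega
  have h2 := sweepU (2 * m) (admL1 m t hF)
  rw [stgL1_start, stgL1_end, h1] at h2
  exact h2.symm

lemma rowL2 (m t : ℕ) {F : Finset (Sym2 (ℤ × ℤ))} (hF : ∀ u v, s(u, v) ∈ F → u.1 - u.2 ≤ 2 * t + 2) :
    upR 0 (2 * m) (lawA (LW m) F (gL m t)) = lawA (LW m) (F ∪ V2 m t) (fL m (t + 1)) := by
  have h2 := sweepU (2 * m) (admL2 m t hF)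
  rw [stgL2_start, stgL2_end] at h2
  exact h2.symm

/-! ### the edges -/

/-- the edges below the level `b` -/
noncomputable def loE (m : ℕ) (a b : ℤ) : Finset (Sym2 (ℤ × ℤ)) :=
  edgesIn (reg m a 1) ∪ edgesIn (rl m 1 b)

lemma loE_level {m : ℕ} {a b : ℤ} (hb : 1 ≤ b) {u v : ℤ × ℤ} (h : s(u, v) ∈ loE m a b) :
    u.1 - u.2 ≤ b := by
  unfold loE at h
  rw [mem_union, mem_edgesIn, mem_edgesIn, mem_reg, mem_reg, mem_rl, mem_rl] at h
  omega

lemma V1_eq (m t : ℕ) : V1 m t = edgesIn (rl m (2 * t + 1) (2 * t + 2)) := by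
  ext e
  constructor
  · intro h
    unfold V1 at h
    rw [mem_image] at h
    obtain ⟨r, hr, rfl⟩ := h
    rw [mem_Ico] at hr
    unfold edU cns
    rw [gL_le (by omega), if_neg (by omega), fL_lt (by omega), mem_edgesIn, mem_rl, mem_rl]
    simp only
    refine ⟨by omega, by omega, ?_⟩
    rcases Nat.even_or_odd' r with ⟨k, hk | hk⟩
    · right
      simp only
      have e1 : ((r / 2 : ℕ) : ℤ) = k := by omega
      have e2 : (((r + 1) / 2 - 1 : ℕ) : ℤ) = k - 1 := by omega
      rw [e1, e2]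
      refine ⟨by ring, ?_⟩
      rw [show (k:ℤ) + t + 1 - (k - 1 + t + 1) = 1 by ring]
      simp
    · left
      simp only
      have e1 : ((r / 2 : ℕ) : ℤ) = k := by omega
      have e2 : (((r + 1) / 2 - 1 : ℕ) : ℤ) = k := by omega
      rw [e1, e2]
      refine ⟨rfl, ?_⟩
      rw [show (k:ℤ) - t - 1 - (k - t) = -1 by ring]
      simp
  · intro h
    rcases edge_cases h with ⟨x, y, rfl⟩ | ⟨x, y, rfl⟩
    · rw [hE_mem, mem_rl, mem_rl] at h
      simp only at h
      unfold V1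
      rw [mem_image]
      obtain ⟨k, hk⟩ : ∃ k : ℕ, x + y = 2 * (k:ℤ) - 1 := ⟨((x + y + 1) / 2).toNat, by omega⟩
      have hk1 : 1 ≤ k := by omega
      refine ⟨2 * k, by rw [mem_Ico]; omega, ?_⟩
      unfold edU hE cns
      rw [if_neg (by omega), show 2 * k / 2 = k by omega, show (2 * k + 1) / 2 - 1 = k - 1 by omega,
        gL_le (by omega), fL_lt (by omega), Sym2.eq_swap]
      have e1 : ((k - 1 : ℕ) : ℤ) + t + 1 = x := by omega
      have e2 : ((k - 1 : ℕ) : ℤ) - t = y := by omega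
      have e3 : (k:ℤ) + t + 1 = x + 1 := by omega
      have e4 : (k:ℤ) - t - 1 = y := by omega
      rw [e1, e2, e3, e4]
    · rw [vE_mem, mem_rl, mem_rl] at h
      simp only at h
      unfold V1
      rw [mem_image]
      obtain ⟨k, hk⟩ : ∃ k : ℕ, x + y = 2 * (k:ℤ) := ⟨((x + y) / 2).toNat, by omega⟩
      refine ⟨2 * k + 1, by rw [mem_Ico]; omega, ?_⟩
      unfold edU vE cns
      rw [if_neg (by omega), show (2 * k + 1) / 2 = k by omega,
        show (2 * k + 1 + 1) / 2 - 1 = k by omega, gL_le (by omega), fL_lt (by omega)]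
      have e1 : (k:ℤ) + t + 1 = x := by omega
      have e2 : (k:ℤ) - t - 1 = y := by omega
      have e4 : (k:ℤ) - t = y + 1 := by omega
      rw [e1, e2, e4]

lemma V2_eq (m t : ℕ) : V2 m t = edgesIn (rl m (2 * t + 2) (2 * t + 3)) := by
  ext e
  constructor
  · intro h
    unfold V2 at h
    rw [mem_image] at h
    obtain ⟨r, hr, rfl⟩ := h
    rw [mem_Ico] at hr
    unfold edU
    rw [gL_le (by omega), fL_lt (by omega), mem_edgesIn, mem_rl, mem_rl]
    push_cast
    refine ⟨by omega, by omega, ?_⟩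
    rcases Nat.even_or_odd' r with ⟨k, hk | hk⟩
    · right
      simp only
      have e1 : (r : ℤ) / 2 = k := by omega
      have e2 : ((r : ℤ) + 1) / 2 = k := by omega
      rw [e1, e2]
      refine ⟨by ring, ?_⟩
      rw [show (k:ℤ) + (t + 1) + 1 - (k + t + 1) = 1 by ring]
      simp
    · left
      simp only
      have e1 : (r : ℤ) / 2 = k := by omega
      have e2 : ((r : ℤ) + 1) / 2 = k + 1 := by omega
      rw [e1, e2]
      refine ⟨by ring, ?_⟩
      rw [show (k:ℤ) - (t + 1) - (k + 1 - t - 1) = -1 by ring]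
      simp
  · intro h
    unfold V2
    rw [mem_image]
    rcases edge_cases h with ⟨x, y, rfl⟩ | ⟨x, y, rfl⟩
    · rw [hE_mem, mem_rl, mem_rl] at h
      simp only at h
      obtain ⟨k, hk⟩ : ∃ k : ℕ, x + y = 2 * (k:ℤ) := ⟨((x + y) / 2).toNat, by omega⟩
      refine ⟨2 * k, by rw [mem_Ico]; omega, ?_⟩
      unfold edU hE
      rw [show 2 * k / 2 = k by omega, show (2 * k + 1) / 2 = k by omega,
        gL_le (by omega), fL_lt (by omega), Sym2.eq_swap]
      push_cast
      have e1 : (k:ℤ) + t + 1 = x := by omega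
      have e2 : (k:ℤ) - t - 1 = y := by omega
      have e3 : (k:ℤ) + (t + 1) + 1 = x + 1 := by omega
      have e4 : (k:ℤ) - (t + 1) = y := by omega
      rw [e1, e2, e3, e4]
    · rw [vE_mem, mem_rl, mem_rl] at h
      simp only at h
      obtain ⟨k, hk⟩ : ∃ k : ℕ, x + y = 2 * (k:ℤ) + 1 := ⟨((x + y) / 2).toNat, by omega⟩
      refine ⟨2 * k + 1, by rw [mem_Ico]; omega, ?_⟩
      unfold edU vE
      rw [show (2 * k + 1) / 2 = k by omega,
        show (2 * k + 1 + 1) / 2 = k + 1 by omega, gL_le (by omega), fL_lt (by omega)]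
      push_cast
      have e1 : (k:ℤ) + (t + 1) + 1 = x := by omega
      have e2 : (k:ℤ) - (t + 1) = y := by omega
      have e3 : (k:ℤ) + 1 + t + 1 = x := by omega
      have e4 : (k:ℤ) + 1 - t - 1 = y + 1 := by omega
      rw [e1, e2, e3, e4]

lemma loE_step (m : ℕ) {a b : ℤ} (hb : 1 ≤ b) : loE m a b ∪ edgesIn (rl m b (b + 1)) = loE m a (b + 1) := by
  unfold loE
  ext e
  rw [mem_union, mem_union, mem_union]
  induction e using Sym2.ind with
  | _ u v =>
    rw [mem_edgesIn, mem_edgesIn, mem_edgesIn, mem_edgesIn, mem_reg, mem_reg, mem_rl, mem_rl, mem_rl,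
      mem_rl, mem_rl, mem_rl]
    constructor
    · rintro ((⟨h1, h2, h3⟩ | ⟨h1, h2, h3⟩) | ⟨h1, h2, h3⟩)
      · exact Or.inl ⟨h1, h2, h3⟩
      · exact Or.inr ⟨by omega, by omega, h3⟩
      · exact Or.inr ⟨by omega, by omega, h3⟩
    · rintro (⟨h1, h2, h3⟩ | ⟨h1, h2, h3⟩)
      · exact Or.inl (Or.inl ⟨h1, h2, h3⟩)
      · have h5 := adj_level h3
        by_cases h4 : u.1 - u.2 ≤ b ∧ v.1 - v.2 ≤ b
        · exact Or.inl (Or.inr ⟨by omega, by omega, h3⟩)
        · exact Or.inr ⟨by omega, by omega, h3⟩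

lemma loE_one (m : ℕ) (a : ℤ) : loE m a 1 = edgesIn (reg m a 1) := by
  unfold loE
  apply union_eq_left.2
  intro e
  induction e using Sym2.ind with
  | _ u v =>
    rw [mem_edgesIn, mem_rl, mem_rl]
    rintro ⟨h1, h2, h3⟩
    have h5 := adj_level h3
    omega

theorem DL_step (m t : ℕ) (a : ℤ) :
    DL m (lawA (LW m) (loE m a (2 * t + 1)) (fL m t)) =
      lawA (LW m) (loE m a (2 * (t + 1 : ℕ) + 1)) (fL m (t + 1)) := by
  unfold DL
  have e1 : (2 : ℤ) * t + 2 = 2 * t + 1 + 1 := by ring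
  have e2 : (2 : ℤ) * t + 3 = 2 * t + 2 + 1 := by ring
  rw [LinearMap.comp_apply, LinearMap.comp_apply,
    rowL1 m t (fun u v h => loE_level (by omega) h), V1_eq]
  nth_rw 1 [e1]
  rw [loE_step m (by omega), ← e1, rowL2 m t (fun u v h => loE_level (by omega) h), V2_eq, e2,
    loE_step m (by omega), ← e2]
  push_cast
  rfl

theorem DL_pow (m k : ℕ) (a : ℤ) :
    (DL m ^ k) (lawA (LW m) (edgesIn (reg m a 1)) (fL m 0)) =
      lawA (LW m) (loE m a (2 * k + 1)) (fL m k) := by
  induction k with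
  | zero =>
    rw [pow_zero]
    rw [Nat.cast_zero, mul_zero, zero_add, loE_one]
    rfl
  | succ k ih =>
    rw [pow_succ', Module.End.mul_apply, ih, DL_step m k]

/-- the operator of the corner rectangle -/
noncomputable def KL (m k : ℕ) : IP.M →ₗ[ℝ] IP.M := upR 1 (2 * m) ∘ₗ IP.In 0 ∘ₗ (DL m ^ k)

/-- **The law of the lower piece.** -/
theorem law_lowL (m k : ℕ) (a : ℤ) :
    lawA (LW m) (loE m a (2 * k + 2)) (gL m k) =
      KL m k (law (2 * m + 1) (edgesIn (reg m a 1)) (fr m 0)) := by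
  have h1 : lawA (LW m) (edgesIn (reg m a 1)) (fL m 0) =
      law (2 * m + 1) (edgesIn (reg m a 1)) (fr m 0) := by
    rw [← lawA_low, fJ_zero, fL_zero]
  have e1 : (2 : ℤ) * k + 2 = 2 * k + 1 + 1 := by ring
  unfold KL
  rw [LinearMap.comp_apply, LinearMap.comp_apply, ← h1, DL_pow,
    rowL1 m k (fun u v h => loE_level (by omega) h), V1_eq]
  nth_rw 2 [e1]
  rw [loE_step m (by omega), ← e1]

end H47Perc.LN
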