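import Pool.Agent.Helper87.J.Geo
import Pool.Agent.Helper45.LGeo.Lower

/-!
The L-shaped corridor: the two pieces, gluing of their states.

Coordinates `u = x + y`, `w = x - y`.  The lower piece is the strip `0 ≤ u ≤ 2m+1`, `w ≤ 1`, together with the
rectangle `0 ≤ u ≤ 2m`, `1 ≤ w ≤ 2k+2`.  The right leg `u ≥ 2m`, `1 ≤ w ≤ 2k+2` is the image of a strip under
`rt m`; its wall is the top wall `w = 2k+2`.  The inner corner `(m+1, m)` is split into two vertices: one
belongs to the wall of the lower piece, the other one to the right leg.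
-/

set_option autoImplicit false

namespace H47Perc.LN
open Finset H47Perc.DS H47Perc.SL H47Perc.JJ

/-- the map of the right leg -/
def rt (m : ℕ) : ℤ × ℤ ≃ ℤ × ℤ where
  toFun z := (z.1 + m, m - 1 - z.2)
  invFun z := (z.1 - m, m - 1 - z.2)
  left_inv z := by ext <;> simp only <;> ring
  right_inv z := by ext <;> simp only <;> ring

lemma rt_apply (m : ℕ) (z : ℤ × ℤ) : rt m z = (z.1 + m, m - 1 - z.2) := rfl
lemma rt_symm_apply (m : ℕ) (z : ℤ × ℤ) : (rt m).symm z = (z.1 - m, m - 1 - z.2) := rfl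

lemma rt_iso (m : ℕ) : IsIso (rt m) := by
  intro u v
  simp only [rt_apply, lattice]
  rw [show u.1 + (m : ℤ) = v.1 + m ↔ u.1 = v.1 by omega,
    show (m : ℤ) - 1 - u.2 = m - 1 - v.2 ↔ u.2 = v.2 by omega,
    show (m : ℤ) - 1 - u.2 - (m - 1 - v.2) = v.2 - u.2 by ring,
    show u.1 + (m : ℤ) - (v.1 + m) = u.1 - v.1 by ring, abs_sub_comm v.2 u.2]

/-- the top wall of the rectangle -/
def TT (m k : ℕ) : Set (ℤ × ℤ) :=
  {z | z.1 - z.2 = 2 * (k : ℤ) + 2 ∧ 0 ≤ z.1 + z.2 ∧ z.1 + z.2 ≤ 2 * (m : ℤ)}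

/-- the top wall of the right leg -/
def TR (m k : ℕ) : Set (ℤ × ℤ) := {z | z.1 - z.2 = 2 * (k : ℤ) + 2 ∧ 2 * (m : ℤ) ≤ z.1 + z.2}

lemma mem_TT {m k : ℕ} {z : ℤ × ℤ} :
    z ∈ TT m k ↔ z.1 - z.2 = 2 * (k : ℤ) + 2 ∧ 0 ≤ z.1 + z.2 ∧ z.1 + z.2 ≤ 2 * (m : ℤ) := Iff.rfl
lemma mem_TR {m k : ℕ} {z : ℤ × ℤ} :
    z ∈ TR m k ↔ z.1 - z.2 = 2 * (k : ℤ) + 2 ∧ 2 * (m : ℤ) ≤ z.1 + z.2 := Iff.rfl

lemma rt_mem (m k : ℕ) (z : ℤ × ℤ) : rt m z ∈ TR m k ↔ z ∈ SI (2 * k + 1) := by
  rw [mem_TR, mem_SI, rt_apply]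
  simp only
  omega

/-- the inner corner -/
def cor (m : ℕ) : ℤ × ℤ := ((m : ℤ) + 1, (m : ℤ))

/-- the next vertex of the right wall -/
def wal (m : ℕ) : ℤ × ℤ := ((m : ℤ), (m : ℤ) + 1)

lemma cor_ne (m : ℕ) {z : ℤ × ℤ} (h : z.1 - z.2 ≠ 1 ∨ z.1 + z.2 ≠ 2 * (m : ℤ) + 1) : z ≠ cor m := by
  rintro rfl
  unfold cor at h
  simp only at h
  omega

lemma cor_LW (m : ℕ) : cor m ∈ LW m := by
  rw [mem_LW]
  unfold cor
  simp only
  omega

lemma wal_LW (m : ℕ) : wal m ∈ LW m := by
  rw [mem_LW]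
  unfold wal
  simp only
  omega

lemma wal_ne (m : ℕ) : wal m ≠ cor m := by
  apply cor_ne
  unfold wal
  simp only
  omega

/-- the relation of the lower piece, the corner being removed -/
def R0 (m : ℕ) (ω : Finset (Sym2 (ℤ × ℤ))) : Setoid (ℤ × ℤ) where
  r x y := x = y ∨ (x ≠ cor m ∧ y ≠ cor m ∧ cs (LW m) ω x y)
  iseqv := by
    refine ⟨fun x => Or.inl rfl, ?_, ?_⟩
    · rintro x y (rfl | ⟨h1, h2, h3⟩)
      · exact Or.inl rfl
      · exact Or.inr ⟨h2, h1, (cs (LW m) ω).symm h3⟩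
    · rintro x y z (rfl | ⟨h1, h2, h3⟩) (rfl | ⟨h4, h5, h6⟩)
      · exact Or.inl rfl
      · exact Or.inr ⟨h4, h5, h6⟩
      · exact Or.inr ⟨h1, h2, h3⟩
      · exact Or.inr ⟨h1, h5, (cs (LW m) ω).trans h3 h6⟩

lemma R0_iff {m : ℕ} {ω : Finset (Sym2 (ℤ × ℤ))} {x y : ℤ × ℤ} :
    R0 m ω x y ↔ x = y ∨ (x ≠ cor m ∧ y ≠ cor m ∧ cs (LW m) ω x y) := Iff.rfl

/-- the sites -/
def frL (m k i : ℕ) : ℤ × ℤ := if m + k < i then wal m else gL m k i

lemma frL_wall {m k i : ℕ} (h : m + k < i) : frL m k i = wal m := if_pos h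
lemma frL_le {m k i : ℕ} (h : i ≤ m) : frL m k i = ((i : ℤ) + k + 1, (i : ℤ) - k - 1) := by
  unfold frL
  rw [if_neg (by omega), gL_le h]
lemma frL_mid {m k i : ℕ} (h : m ≤ i) (h' : i ≤ m + k) :
    frL m k i = (2 * (m : ℤ) + k + 1 - i, (i : ℤ) - k - 1) := by
  by_cases h2 : i = m
  · subst h2
    rw [frL_le le_rfl]
    ext <;> simp only
    ring
  · unfold frL
    rw [if_neg (by omega), gL_gt (by omega), fL_mid (by omega) (by omega)]
    ext <;> simp only <;> omega

lemma frL_right {m k i : ℕ} (h : m ≤ i) (h' : i ≤ m + k) :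
    frL m k i = rt m (fr k 0 (m + k - i)) := by
  rw [frL_mid h h', fr0_apply (by omega), rt_apply]
  ext
  · simp only
    omega
  · simp only
    omega

lemma frL_ne (m k i : ℕ) : frL m k i ≠ cor m := by
  by_cases h : m + k < i
  · rw [frL_wall h]
    exact wal_ne m
  · by_cases h1 : i ≤ m
    · rw [frL_le h1]
      apply cor_ne
      simp only
      omega
    · rw [frL_mid (by omega) (by omega)]
      apply cor_ne
      simp only
      omega

lemma frL_inj {m k x y : ℕ} (h : frL m k x = frL m k y) : x = y ∨ (m + k < x ∧ m + k < y) := by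
  have key : ∀ i, (i ≤ m ∧ frL m k i = ((i : ℤ) + k + 1, (i : ℤ) - k - 1)) ∨
      (m < i ∧ i ≤ m + k ∧ frL m k i = (2 * (m : ℤ) + k + 1 - i, (i : ℤ) - k - 1)) ∨
      (m + k < i ∧ frL m k i = ((m : ℤ), (m : ℤ) + 1)) := by
    intro i
    by_cases h1 : i ≤ m
    · exact Or.inl ⟨h1, frL_le h1⟩
    by_cases h2 : i ≤ m + k
    · exact Or.inr (Or.inl ⟨by omega, h2, frL_mid (by omega) h2⟩)
    · exact Or.inr (Or.inr ⟨by omega, frL_wall (by omega)⟩)
  rcases key x with ⟨hx, ex⟩ | ⟨hx, hx', ex⟩ | ⟨hx, ex⟩ <;>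
    rcases key y with ⟨hy, ey⟩ | ⟨hy, hy', ey⟩ | ⟨hy, ey⟩ <;>
    (rw [ex, ey, Prod.mk.injEq] at h; omega)

/-! ### the edges of the pieces -/

lemma lo_edge {m k : ℕ} {a : ℤ} {ω : Finset (Sym2 (ℤ × ℤ))} (h : ω ⊆ loE m a (2 * k + 2))
    {u v : ℤ × ℤ} (huv : s(u, v) ∈ ω) : 0 ≤ u.1 + u.2 ∧
      ((u.1 + u.2 ≤ 2 * m + 1 ∧ u.1 - u.2 ≤ 1) ∨
        (u.1 + u.2 ≤ 2 * m ∧ 1 ≤ u.1 - u.2 ∧ u.1 - u.2 ≤ 2 * k + 2)) := by
  have h1 := h huv
  unfold loE at h1
  rw [mem_union] at h1
  rcases h1 with h1 | h1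
  · have := mem_reg.1 (mem_edgesIn.1 h1).1
    omega
  · have := mem_rl.1 (mem_edgesIn.1 h1).1
    omega

/-- the only edge of the lower piece at the corner -/
lemma lo_cor {m k : ℕ} {a : ℤ} {ω : Finset (Sym2 (ℤ × ℤ))} (h : ω ⊆ loE m a (2 * k + 2))
    {v : ℤ × ℤ} (huv : s(cor m, v) ∈ ω) : s(cor m, v) = e0 m := by
  have h1 := h huv
  unfold loE at h1
  have hv : v = ((m : ℤ), (m : ℤ)) := by
    rw [mem_union, mem_edgesIn, mem_edgesIn, mem_reg, mem_reg, mem_rl, mem_rl] at h1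
    have h3 : lattice.Adj (cor m) v := by
      rcases h1 with h1 | h1
      · exact h1.2.2
      · exact h1.2.2
    have h4 := adj_level h3
    have h5 := adj_sum h3
    unfold cor at h1 h4 h5
    simp only at h1 h4 h5
    ext
    · simp only
      omega
    · simp only
      omega
  rw [hv]
  unfold cor e0
  rw [Sym2.eq_swap]

lemma rt_edge {m k : ℕ} {b : ℤ} {ω : Finset (Sym2 (ℤ × ℤ))} (h : ω ⊆ edgesIn (reg k 1 b))
    {u v : ℤ × ℤ} (huv : s(u, v) ∈ ω.map (emb (rt m))) :
    2 * (m : ℤ) ≤ u.1 + u.2 ∧ 1 ≤ u.1 - u.2 ∧ u.1 - u.2 ≤ 2 * k + 2 := by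
  have := edge_reg h (map_edge_symm huv)
  rw [rt_symm_apply] at this
  simp only at this
  omega

/-! ### the states on the sites -/

lemma comap_R0 (m k : ℕ) (ω : Finset (Sym2 (ℤ × ℤ))) :
    Setoid.comap (frL m k) (R0 m ω) = stA (LW m) (gL m k) ω := by
  have key : ∀ i, cs (LW m) ω (frL m k i) (gL m k i) := by
    intro i
    by_cases h : m + k < i
    · have e : gL m k i = cor m := by
        rw [gL_gt (by omega), fL_ge (by omega)]
        rfl
      rw [frL_wall h, e]
      exact cs_wall (wal_LW m) (cor_LW m)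
    · unfold frL
      rw [if_neg h]
  ext x y
  rw [Setoid.comap_rel, R0_iff, stA_rel]
  constructor
  · rintro (h | ⟨_, _, h⟩)
    · refine (cs _ _).trans ((cs _ _).symm (key x)) ?_
      rw [h]
      exact key y
    · exact (cs _ _).trans ((cs _ _).symm (key x)) ((cs _ _).trans h (key y))
  · intro h
    exact Or.inr ⟨frL_ne m k x, frL_ne m k y,
      (cs _ _).trans (key x) ((cs _ _).trans h ((cs _ _).symm (key y)))⟩

/-- the sites `0, ..., m` are joined -/
def topw (m : ℕ) : IP.St where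
  r x y := x = y ∨ (x ≤ m ∧ y ≤ m)
  iseqv := by
    refine ⟨fun x => Or.inl rfl, ?_, ?_⟩
    · rintro x y (rfl | ⟨h1, h2⟩)
      · exact Or.inl rfl
      · exact Or.inr ⟨h2, h1⟩
    · rintro x y z (rfl | ⟨h1, h2⟩) (rfl | ⟨h3, h4⟩)
      · exact Or.inl rfl
      · exact Or.inr ⟨h3, h4⟩
      · exact Or.inr ⟨h1, h2⟩
      · exact Or.inr ⟨h1, h4⟩

/-- the state of the right leg on the sites -/
def revR (m k : ℕ) (t : IP.St) : IP.St where
  r x y := x = y ∨ ((m ≤ x ∧ x ≤ m + k) ∧ (m ≤ y ∧ y ≤ m + k) ∧ t (m + k - x) (m + k - y))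
  iseqv := by
    refine ⟨fun x => Or.inl rfl, ?_, ?_⟩
    · rintro x y (rfl | ⟨h1, h2, h3⟩)
      · exact Or.inl rfl
      · exact Or.inr ⟨h2, h1, t.symm h3⟩
    · rintro x y z (rfl | ⟨h1, h2, h3⟩) (rfl | ⟨h4, h5, h6⟩)
      · exact Or.inl rfl
      · exact Or.inr ⟨h4, h5, h6⟩
      · exact Or.inr ⟨h1, h2, h3⟩
      · exact Or.inr ⟨h1, h5, t.trans h3 h6⟩

lemma topw_iff {m x y : ℕ} : topw m x y ↔ x = y ∨ (x ≤ m ∧ y ≤ m) := Iff.rfl
lemma revR_iff {m k x y : ℕ} {t : IP.St} : revR m k t x y ↔ x = y ∨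
    ((m ≤ x ∧ x ≤ m + k) ∧ (m ≤ y ∧ y ≤ m + k) ∧ t (m + k - x) (m + k - y)) := Iff.rfl

lemma cs_empty {A : Set (ℤ × ℤ)} {x y : ℤ × ℤ} : cs A ∅ x y ↔ x = y ∨ (x ∈ A ∧ y ∈ A) := by
  constructor
  · intro h
    let S : Setoid (ℤ × ℤ) :=
      { r := fun x y => x = y ∨ (x ∈ A ∧ y ∈ A)
        iseqv := by
          refine ⟨fun x => Or.inl rfl, ?_, ?_⟩
          · rintro x y (rfl | ⟨h1, h2⟩)
            · exact Or.inl rfl
            · exact Or.inr ⟨h2, h1⟩
          · rintro x y z (rfl | ⟨h1, h2⟩) (rfl | ⟨h3, h4⟩)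
            · exact Or.inl rfl
            · exact Or.inr ⟨h3, h4⟩
            · exact Or.inr ⟨h1, h2⟩
            · exact Or.inr ⟨h1, h4⟩ }
    have hS : cs A ∅ ≤ S := by
      rw [cs_le_iff]
      refine ⟨fun u v h => absurd h (Finset.notMem_empty _), fun u v h1 h2 => Or.inr ⟨h1, h2⟩⟩
    exact hS h
  · rintro (rfl | ⟨h1, h2⟩)
    · exact (cs A ∅).refl _
    · exact cs_wall h1 h2

lemma frL_TT {m k i : ℕ} : frL m k i ∈ TT m k ↔ i ≤ m := by
  constructor
  · intro h
    by_contra hi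
    rw [mem_TT] at h
    by_cases h1 : i ≤ m + k
    · rw [frL_mid (by omega) h1] at h
      simp only at h
      omega
    · rw [frL_wall (by omega)] at h
      unfold wal at h
      simp only at h
      omega
  · intro h
    rw [frL_le h, mem_TT]
    simp only
    omega

lemma comap_TT (m k x y : ℕ) : cs (TT m k) ∅ (frL m k x) (frL m k y) ↔
    topw m x y ∨ (m + k + 1 ≤ x ∧ m + k + 1 ≤ y) := by
  rw [cs_empty, frL_TT, frL_TT, topw_iff]
  constructor
  · rintro (h | h)
    · rcases frL_inj h with h | h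
      · exact Or.inl (Or.inl h)
      · exact Or.inr ⟨h.1, h.2⟩
    · exact Or.inl (Or.inr h)
  · rintro ((h | h) | ⟨h1, h2⟩)
    · exact Or.inl (by rw [h])
    · exact Or.inr h
    · left
      rw [frL_wall (by omega), frL_wall (by omega)]

lemma frL_iso {m k i : ℕ} {b : ℤ} {ω : Finset (Sym2 (ℤ × ℤ))} (h : ω ⊆ edgesIn (reg k 1 b))
    (hi : i < m ∨ m + k < i) :
    ∀ z', cs (TR m k) (ω.map (emb (rt m))) (frL m k i) z' → z' = frL m k i := by
  intro z' hz
  have h1 : (frL m k i).1 + (frL m k i).2 < 2 * m ∨ (frL m k i).1 - (frL m k i).2 < 1 := by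
    rcases hi with hi | hi
    · left
      rw [frL_le hi.le]
      simp only
      omega
    · right
      rw [frL_wall hi]
      unfold wal
      simp only
      omega
  refine cs_isolated ?_ ?_ hz
  · intro v hv
    have := rt_edge h hv
    omega
  · intro hz'
    have h2 := hz'.1
    have h3 := hz'.2
    omega

lemma comap_TR (m k : ℕ) {b : ℤ} {ω : Finset (Sym2 (ℤ × ℤ))} (h : ω ⊆ edgesIn (reg k 1 b)) (x y : ℕ) :
    cs (TR m k) (ω.map (emb (rt m))) (frL m k x) (frL m k y) ↔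
      revR m k (st (2 * k + 1) (fr k 0) ω) x y ∨ (m + k + 1 ≤ x ∧ m + k + 1 ≤ y) := by
  constructor
  · intro hc
    by_cases hx : m ≤ x ∧ x ≤ m + k
    · by_cases hy : m ≤ y ∧ y ≤ m + k
      · left
        right
        refine ⟨hx, hy, ?_⟩
        rw [frL_right hx.1 hx.2, frL_right hy.1 hy.2, cs_map_iff (rt_mem m k)] at hc
        exact cs_le_cw _ _ hc
      · have := frL_iso h (by omega) _ (Setoid.symm' _ hc)
        rcases frL_inj this with h1 | h1
        · omega
        · omega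
    · have := frL_iso h (by omega) _ hc
      rcases frL_inj this with h1 | h1
      · left
        left
        exact h1.symm
      · exact Or.inr ⟨h1.2, h1.1⟩
  · rintro ((rfl | ⟨hx, hy, hc⟩) | ⟨hx, hy⟩)
    · exact (cs _ _).refl _
    · rw [frL_right hx.1 hx.2, frL_right hy.1 hy.2, cs_map_iff (rt_mem m k)]
      change cw (2 * k + 1) ω (fr k 0 (m + k - x)) (fr k 0 (m + k - y)) at hc
      refine cs_of_cw (fun u v huv => (edge_reg h huv).2.2.1) ?_ ?_ hc
      · rw [fr_zero]; simp only; omega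
      · rw [fr_zero]; simp only; omega
    · rw [frL_wall (by omega), frL_wall (by omega)]

/-! ### gluing -/

/-- the connectivity of the glued configuration -/
def glL (m k : ℕ) (ω0 ω2 : Finset (Sym2 (ℤ × ℤ))) : Setoid (ℤ × ℤ) :=
  R0 m ω0 ⊔ cs (TT m k) ∅ ⊔ cs (TR m k) (ω2.map (emb (rt m)))

/-- absorbing the wall -/
lemma sup_wall {n : ℕ} {σ τ ρ : IP.St} (hσ : ∀ x y, n ≤ x → n ≤ y → σ x y)
    (h : ∀ x y, τ x y ↔ ρ x y ∨ (n ≤ x ∧ n ≤ y)) : σ ⊔ τ = σ ⊔ ρ := by
  apply le_antisymm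
  · apply sup_le le_sup_left
    intro x y hxy
    rcases (h x y).1 hxy with h1 | h1
    · exact (le_sup_right : ρ ≤ σ ⊔ ρ) h1
    · exact (le_sup_left : σ ≤ σ ⊔ ρ) (hσ x y h1.1 h1.2)
  · apply sup_le le_sup_left
    intro x y hxy
    exact (le_sup_right : τ ≤ σ ⊔ τ) ((h x y).2 (Or.inl hxy))

lemma R0_iso_cor (m : ℕ) (ω : Finset (Sym2 (ℤ × ℤ))) : ∀ z', R0 m ω (cor m) z' → z' = cor m := by
  rintro z' (h | ⟨h, _⟩)
  · exact h.symm
  · exact absurd rfl h

lemma R0_iso {m : ℕ} {ω : Finset (Sym2 (ℤ × ℤ))} {z : ℤ × ℤ} (h1 : ∀ v, s(z, v) ∉ ω)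
    (h2 : z ∉ LW m) : ∀ z', R0 m ω z z' → z' = z := by
  rintro z' (h | ⟨_, _, h⟩)
  · exact h.symm
  · exact cs_isolated h1 h2 h

lemma stA_wall (m k : ℕ) (ω : Finset (Sym2 (ℤ × ℤ))) {x y : ℕ} (hx : m + k + 1 ≤ x)
    (hy : m + k + 1 ≤ y) : stA (LW m) (gL m k) ω x y := by
  rw [stA_rel, gL_gt (by omega), gL_gt (by omega), fL_ge (by omega), fL_ge (by omega)]

theorem comap_glL (m k : ℕ) {a b : ℤ} {ω0 ω2 : Finset (Sym2 (ℤ × ℤ))}
    (h0 : ω0 ⊆ loE m a (2 * k + 2)) (h2 : ω2 ⊆ edgesIn (reg k 1 b)) :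
    Setoid.comap (frL m k) (glL m k ω0 ω2) =
      stA (LW m) (gL m k) ω0 ⊔ topw m ⊔ revR m k (st (2 * k + 1) (fr k 0) ω2) := by
  have step1 : Setoid.comap (frL m k) (R0 m ω0 ⊔ cs (TT m k) ∅) =
      stA (LW m) (gL m k) ω0 ⊔ topw m := by
    rw [IP.PG.comap_sup, comap_R0]
    · exact sup_wall (n := m + k + 1) (fun x y hx hy => stA_wall m k ω0 hx hy)
        (fun x y => by rw [Setoid.comap_rel]; exact comap_TT m k x y)
    · intro z
      by_cases hz : z ∈ TT m k
      · right; right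
        have h1 := hz
        rw [mem_TT] at h1
        refine ⟨(z.1 - k - 1).toNat, ?_⟩
        have e : (((z.1 - k - 1).toNat : ℕ) : ℤ) = z.1 - k - 1 := Int.toNat_of_nonneg (by omega)
        have e2 : frL m k (z.1 - k - 1).toNat = z := by
          rw [frL_le (by omega), e]
          ext
          · simp only; omega
          · simp only; omega
        rw [e2]
        exact ⟨(R0 m ω0).refl _, (cs _ _).refl _⟩
      · right; left
        intro z' hz'
        exact cs_isolated (fun u => Finset.notMem_empty _) hz hz'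
  have step2 : Setoid.comap (frL m k) (glL m k ω0 ω2) =
      Setoid.comap (frL m k) (R0 m ω0 ⊔ cs (TT m k) ∅) ⊔
      Setoid.comap (frL m k) (cs (TR m k) (ω2.map (emb (rt m)))) := by
    unfold glL
    apply IP.PG.comap_sup
    intro z
    by_cases g2 : (∀ u, s(z, u) ∉ ω2.map (emb (rt m))) ∧ z ∉ TR m k
    · exact Or.inr (Or.inl fun z' hz' => cs_isolated g2.1 g2.2 hz')
    have m2 : 2 * (m : ℤ) ≤ z.1 + z.2 ∧ 1 ≤ z.1 - z.2 ∧ z.1 - z.2 ≤ 2 * k + 2 := by
      by_cases g3 : ∀ u, s(z, u) ∉ ω2.map (emb (rt m))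
      · have hz : z ∈ TR m k := by
          by_contra hlt
          exact g2 ⟨g3, hlt⟩
        have e1 := hz.1
        have e2 := hz.2
        omega
      · push Not at g3
        obtain ⟨v, hv⟩ := g3
        exact rt_edge h2 hv
    by_cases g0 : z.1 + z.2 = 2 * m
    · right; right
      refine ⟨(z.2 + k + 1).toNat, ?_⟩
      have e : (((z.2 + k + 1).toNat : ℕ) : ℤ) = z.2 + k + 1 := Int.toNat_of_nonneg (by omega)
      have e2 : frL m k (z.2 + k + 1).toNat = z := by
        rw [frL_mid (by omega) (by omega), e]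
        ext
        · simp only; omega
        · simp only; omega
      rw [e2]
      exact ⟨(R0 m ω0 ⊔ cs (TT m k) ∅).refl _, (cs _ _).refl _⟩
    · left
      apply sup_isolated
      · by_cases hc : z = cor m
        · rw [hc]
          exact R0_iso_cor m ω0
        · apply R0_iso
          · intro v hv
            have h3 := lo_edge h0 hv
            apply hc
            unfold cor
            ext
            · simp only; omega
            · simp only; omega
          · intro hz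
            rw [mem_LW] at hz
            apply hc
            unfold cor
            ext
            · simp only; omega
            · simp only; omega
      · intro z' hz'
        refine cs_isolated (fun u => Finset.notMem_empty _) ?_ hz'
        intro hz
        rw [mem_TT] at hz
        omega
  rw [step2, step1]
  refine sup_wall (n := m + k + 1) (fun x y hx hy => ?_)
    (fun x y => by rw [Setoid.comap_rel]; exact comap_TR m k h2 x y)
  exact (le_sup_left : stA (LW m) (gL m k) ω0 ≤ _) (stA_wall m k ω0 hx hy)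

/-! ### the crossing event -/

/-- the top wall is joined to the right wall of the lower leg -/
def crossL (m k : ℕ) (t σ : IP.St) : Prop := (σ ⊔ topw m ⊔ revR m k t) m (m + k + 1)

lemma glL_edge {m k : ℕ} {a : ℤ} {ω0 ω2 : Finset (Sym2 (ℤ × ℤ))} (h0 : ω0 ⊆ loE m a (2 * k + 2))
    {u v : ℤ × ℤ} (h : s(u, v) ∈ (ω0 ∪ ω2.map (emb (rt m))).erase (e0 m)) :
    glL m k ω0 ω2 u v := by
  rw [mem_erase, mem_union] at h
  obtain ⟨hne, h1 | h1⟩ := h
  · have hu : u ≠ cor m := by
      rintro rfl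
      exact hne (lo_cor h0 h1)
    have hv : v ≠ cor m := by
      rintro rfl
      rw [Sym2.eq_swap] at h1 hne
      exact hne (lo_cor h0 h1)
    exact (le_sup_left.trans le_sup_left : R0 m ω0 ≤ glL m k ω0 ω2) (Or.inr ⟨hu, hv, cs_edge h1⟩)
  · exact (le_sup_right : cs (TR m k) (ω2.map (emb (rt m))) ≤ glL m k ω0 ω2) (cs_edge h1)

lemma glL_of_joined {m k : ℕ} {a : ℤ} {ω0 ω2 : Finset (Sym2 (ℤ × ℤ))} (h0 : ω0 ⊆ loE m a (2 * k + 2))
    {u v : ℤ × ℤ} (h : Joined ((ω0 ∪ ω2.map (emb (rt m))).erase (e0 m)) u v) :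
    glL m k ω0 ω2 u v := by
  obtain ⟨p⟩ := h
  induction p with
  | nil => exact (glL _ _ _ _).refl _
  | @cons a b c' hab p ih =>
    rw [SimpleGraph.fromEdgeSet_adj] at hab
    have hab1 : s(a, b) ∈ (ω0 ∪ ω2.map (emb (rt m))).erase (e0 m) := by exact_mod_cast hab.1
    exact (glL _ _ _ _).trans (glL_edge h0 hab1) ih

lemma e0_notMem {m k : ℕ} {b : ℤ} {ω : Finset (Sym2 (ℤ × ℤ))} (h : ω ⊆ edgesIn (reg k 1 b)) :
    e0 m ∉ ω.map (emb (rt m)) := by
  intro h1
  unfold e0 at h1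
  have := rt_edge h h1
  simp only at this
  omega

lemma joined_first {ω : Finset (Sym2 (ℤ × ℤ))} {u v : ℤ × ℤ} (h : Joined ω u v) (hne : u ≠ v) :
    ∃ w, s(u, w) ∈ ω := by
  obtain ⟨p⟩ := h
  cases p with
  | nil => exact absurd rfl hne
  | @cons _ b _ hab p =>
    rw [SimpleGraph.fromEdgeSet_adj] at hab
    exact ⟨b, by exact_mod_cast hab.1⟩

theorem crX_iff_gl (m k : ℕ) {a b : ℤ} {ω0 ω2 : Finset (Sym2 (ℤ × ℤ))}
    (h0 : ω0 ⊆ loE m a (2 * k + 2)) (h2 : ω2 ⊆ edgesIn (reg k 1 b)) :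
    CrX m k (ω0 ∪ ω2.map (emb (rt m))) ↔
      glL m k ω0 ω2 (frL m k m) (frL m k (m + k + 1)) := by
  set ω := ω0 ∪ ω2.map (emb (rt m)) with hω
  have hwall : frL m k (m + k + 1) = wal m := frL_wall (by omega)
  have hT : frL m k m ∈ TT m k := frL_TT.2 le_rfl
  have hR : frL m k m ∈ TR m k := by
    rw [frL_le le_rfl, mem_TR]
    simp only
    omega
  rw [hwall]
  constructor
  · rintro ⟨z, z', h1, h3, h4⟩
    have hz0 : 0 ≤ z.1 + z.2 := by
      have hne : z ≠ z' := by
        rintro rfl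
        rcases h4 with h4 | h4
        · omega
        · rw [h4.1] at h1
          simp only at h1
          omega
      obtain ⟨w, hw⟩ := joined_first h3 hne
      rw [mem_erase, hω, mem_union] at hw
      rcases hw.2 with hw | hw
      · exact (lo_edge h0 hw).1
      · have := rt_edge h2 hw
        omega
    have g1 : glL m k ω0 ω2 (frL m k m) z := by
      by_cases hz : z.1 + z.2 ≤ 2 * m
      · exact (le_sup_right.trans le_sup_left : cs (TT m k) ∅ ≤ glL m k ω0 ω2)
          (cs_wall hT ⟨h1, hz0, hz⟩)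
      · exact (le_sup_right : cs (TR m k) (ω2.map (emb (rt m))) ≤ glL m k ω0 ω2)
          (cs_wall hR ⟨h1, by omega⟩)
    have g2 : glL m k ω0 ω2 z' (wal m) := by
      rcases h4 with h4 | ⟨h4, h5⟩
      · refine (le_sup_left.trans le_sup_left : R0 m ω0 ≤ glL m k ω0 ω2)
          (Or.inr ⟨cor_ne m (Or.inl (by omega)), wal_ne m, cs_wall ?_ (wal_LW m)⟩)
        rw [mem_LW]
        omega
      · have h6 : e0 m ∈ ω0 := by
          rw [hω, mem_union] at h5
          rcases h5 with h5 | h5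
          · exact h5
          · exact absurd h5 (e0_notMem h2)
        subst h4
        refine (le_sup_left.trans le_sup_left : R0 m ω0 ≤ glL m k ω0 ω2)
          (Or.inr ⟨cor_ne m (Or.inl (by simp)), wal_ne m, ?_⟩)
        refine (cs (LW m) ω0).trans (cs_edge (v := cor m) ?_) (cs_wall (cor_LW m) (wal_LW m))
        exact h6
    exact (glL _ _ _ _).trans g1 ((glL _ _ _ _).trans (glL_of_joined h0 h3) g2)
  · intro h
    set T : ℤ × ℤ → Prop := fun z => ∃ p : ℤ × ℤ, p.1 - p.2 = 2 * (k : ℤ) + 2 ∧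
      Joined (ω.erase (e0 m)) p z with hTdef
    set Q : ℤ × ℤ → Prop := fun z => T z ∨ CrX m k ω with hQ
    have hedge : ∀ u v : ℤ × ℤ, s(u, v) ∈ ω.erase (e0 m) → Q u → Q v := by
      rintro u v huv (⟨p, hp, hj⟩ | hc)
      · exact Or.inl ⟨p, hp, joined_trans hj (joined_edge huv)⟩
      · exact Or.inr hc
    have hE : ∀ u v : ℤ × ℤ, s(u, v) ∈ ω.erase (e0 m) → Q u = Q v := by
      intro u v huv
      have h2 : s(v, u) ∈ ω.erase (e0 m) := by
        rw [Sym2.eq_swap]
        exact huv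
      exact propext ⟨hedge u v huv, hedge v u h2⟩
    -- the predicate for the lower piece
    set Q0 : ℤ × ℤ → Prop := fun z => (z ≠ cor m ∧ T z) ∨ CrX m k ω with hQ0
    have hQQ : ∀ z, z ≠ cor m → (Q0 z ↔ Q z) := by
      intro z hz
      simp only [hQ0, hQ]
      constructor
      · rintro (h | h)
        · exact Or.inl h.2
        · exact Or.inr h
      · rintro (h | h)
        · exact Or.inl ⟨hz, h⟩
        · exact Or.inr h
    have hlow : cs (LW m) ω0 ≤ Setoid.comap Q0 ⟨Eq, eq_equivalence⟩ := by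
      have hT0 : ∀ z, e0 m ∈ ω0 → z = ((m : ℤ), (m : ℤ)) → T z → CrX m k ω := by
        rintro z he hz ⟨p, hp, hj⟩
        refine ⟨p, z, hp, hj, Or.inr ⟨hz, ?_⟩⟩
        rw [hω, mem_union]
        exact Or.inl he
      have hstep : ∀ u v : ℤ × ℤ, s(u, v) ∈ ω0 → Q0 u → Q0 v := by
        rintro u v huv (⟨hu, hTu⟩ | hc)
        · by_cases hv : v = cor m
          · subst hv
            have e1 : s(cor m, u) = e0 m := by
              apply lo_cor h0
              rw [Sym2.eq_swap]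
              exact huv
            have e2 : u = ((m : ℤ), (m : ℤ)) := by
              unfold cor e0 at e1
              rw [Sym2.eq_iff, Prod.mk.injEq] at e1
              rcases e1 with e1 | e1
              · omega
              · exact e1.2
            refine Or.inr (hT0 u ?_ e2 hTu)
            rw [← e1, Sym2.eq_swap]
            exact huv
          · have hne : s(u, v) ≠ e0 m := by
              intro he
              unfold e0 at he
              rw [Sym2.eq_iff] at he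
              rcases he with he | he
              · exact hv he.2
              · exact hu he.1
            have h3 : s(u, v) ∈ ω.erase (e0 m) := by
              rw [mem_erase, hω, mem_union]
              exact ⟨hne, Or.inl huv⟩
            exact (hQQ v hv).2 (hedge u v h3 (Or.inl hTu))
        · exact Or.inr hc
      have hw : ∀ u v : ℤ × ℤ, u ∈ LW m → Q0 u → Q0 v := by
        rintro u v hu (⟨hu', p, hp, hj⟩ | hc)
        · right
          rw [mem_LW] at hu
          refine ⟨p, u, hp, hj, Or.inl ⟨by omega, ?_⟩⟩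
          by_contra hlt
          apply hu'
          unfold cor
          ext
          · simp only; omega
          · simp only; omega
        · exact Or.inr hc
      rw [cs_le_iff]
      constructor
      · intro u v huv
        rw [Setoid.comap_rel]
        have h2 : s(v, u) ∈ ω0 := by
          rw [Sym2.eq_swap]
          exact huv
        exact propext ⟨hstep u v huv, hstep v u h2⟩
      · intro u v hu hv
        rw [Setoid.comap_rel]
        exact propext ⟨hw u v hu, hw v u hv⟩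
    have htop : ∀ u : ℤ × ℤ, u.1 - u.2 = 2 * (k : ℤ) + 2 → Q u :=
      fun u hu => Or.inl ⟨u, hu, joined_refl _ _⟩
    have hle : glL m k ω0 ω2 ≤ Setoid.comap Q ⟨Eq, eq_equivalence⟩ := by
      refine sup_le (sup_le ?_ ?_) ?_
      · rintro x y (rfl | ⟨hx, hy, hxy⟩)
        · exact (Setoid.comap Q ⟨Eq, eq_equivalence⟩).refl _
        · have h3 := hlow hxy
          rw [Setoid.comap_rel] at h3 ⊢
          have h4 : Q0 x = Q0 y := h3
          exact propext (((hQQ x hx).symm.trans (iff_of_eq h4)).trans (hQQ y hy))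
      · rw [cs_le_iff]
        constructor
        · intro u v huv
          exact absurd huv (Finset.notMem_empty _)
        · intro u v hu hv
          rw [Setoid.comap_rel]
          exact propext ⟨fun _ => htop v hv.1, fun _ => htop u hu.1⟩
      · rw [cs_le_iff]
        constructor
        · intro u v huv
          rw [Setoid.comap_rel]
          apply hE u v
          rw [mem_erase, hω, mem_union]
          refine ⟨?_, Or.inr huv⟩
          intro he
          rw [he] at huv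
          exact e0_notMem h2 huv
        · intro u v hu hv
          rw [Setoid.comap_rel]
          exact propext ⟨fun _ => htop v hv.1, fun _ => htop u hu.1⟩
    have h2' := hle h
    rw [Setoid.comap_rel] at h2'
    have h3 : Q (wal m) :=
      (show Q (frL m k m) = Q (wal m) from h2') ▸ htop _ hT.1
    rcases h3 with ⟨p, hp, hj⟩ | hc
    · refine ⟨p, _, hp, hj, Or.inl ?_⟩
      unfold wal
      simp only
      omega
    · exact hc

/-- **The exact crossing event in terms of the two states.** -/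
theorem crX_iff (m k : ℕ) {a b : ℤ} {ω0 ω2 : Finset (Sym2 (ℤ × ℤ))}
    (h0 : ω0 ⊆ loE m a (2 * k + 2)) (h2 : ω2 ⊆ edgesIn (reg k 1 b)) :
    CrX m k (ω0 ∪ ω2.map (emb (rt m))) ↔
      crossL m k (st (2 * k + 1) (fr k 0) ω2) (stA (LW m) (gL m k) ω0) := by
  rw [crX_iff_gl m k h0 h2]
  unfold crossL
  rw [← comap_glL m k h0 h2]
  rfl

end H47Perc.LN
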