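import Pool.Agent.Helper87.J.Prob
import Pool.Agent.Helper45.LGeo.Geo

/-!
The crossing probability of the L-shaped corridor is a bilinear form of the stationary vectors of the two
legs.
-/

set_option autoImplicit false

namespace H47Perc.LN
open Finset Filter Topology SimpleGraph H47Perc.DS H47Perc.SL H47Perc.JJ
open Pool.Agent.Helper69.RSW (P)

open Classical in
/-- the crossing indicator -/
noncomputable def cfL (m k : ℕ) (t σ : IP.St) : ℝ := if crossL m k t σ then 1 else 0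

/-- the bilinear form of the crossing event: `w` right leg, `v` lower piece -/
noncomputable def lf (m k : ℕ) : IP.M →ₗ[ℝ] IP.M →ₗ[ℝ] ℝ :=
  Finsupp.lsum ℝ fun t => LinearMap.toSpanSingleton ℝ (IP.M →ₗ[ℝ] ℝ)
    (Finsupp.lsum ℝ fun σ => cfL m k t σ • LinearMap.id)

lemma lf_single (m k : ℕ) (t σ : IP.St) (x y : ℝ) :
    lf m k (Finsupp.single t x) (Finsupp.single σ y) = x * y * cfL m k t σ := by
  unfold lf
  rw [Finsupp.lsum_single, LinearMap.toSpanSingleton_apply, LinearMap.smul_apply, Finsupp.lsum_single,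
    LinearMap.smul_apply, LinearMap.id_apply, smul_eq_mul, smul_eq_mul]
  ring

/-! ### decomposition of the edge set -/

/-- the edges of the corridor, the right leg being cut at `u ≤ M1`, the lower one at `-M2 ≤ w` -/
noncomputable def lE2 (m k : ℕ) (M1 M2 : ℤ) : Finset (Sym2 (ℤ × ℤ)) :=
  loE m (-M2) (2 * k + 2) ∪ (edgesIn (reg k 1 (M1 - 2 * m + 1))).map (emb (rt m))

lemma mem_lo {m k : ℕ} {a : ℤ} {u v : ℤ × ℤ} : s(u, v) ∈ loE m a (2 * k + 2) ↔
    ((0 ≤ u.1 + u.2 ∧ u.1 + u.2 ≤ 2 * m + 1 ∧ a ≤ u.1 - u.2 ∧ u.1 - u.2 ≤ 1) ∧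
      (0 ≤ v.1 + v.2 ∧ v.1 + v.2 ≤ 2 * m + 1 ∧ a ≤ v.1 - v.2 ∧ v.1 - v.2 ≤ 1) ∧
      lattice.Adj u v) ∨
    ((0 ≤ u.1 + u.2 ∧ u.1 + u.2 ≤ 2 * m ∧ 1 ≤ u.1 - u.2 ∧ u.1 - u.2 ≤ 2 * k + 2) ∧
      (0 ≤ v.1 + v.2 ∧ v.1 + v.2 ≤ 2 * m ∧ 1 ≤ v.1 - v.2 ∧ v.1 - v.2 ≤ 2 * k + 2) ∧
      lattice.Adj u v) := by
  unfold loE
  rw [mem_union, mem_edgesIn, mem_edgesIn, mem_reg, mem_reg, mem_rl, mem_rl]

lemma mem_rt {m k : ℕ} {b : ℤ} {u v : ℤ × ℤ} :
    s(u, v) ∈ (edgesIn (reg k 1 b)).map (emb (rt m)) ↔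
      (2 * (m : ℤ) ≤ u.1 + u.2 ∧ u.1 + u.2 ≤ b + 2 * m - 1 ∧ 1 ≤ u.1 - u.2 ∧
        u.1 - u.2 ≤ 2 * k + 2) ∧
      (2 * (m : ℤ) ≤ v.1 + v.2 ∧ v.1 + v.2 ≤ b + 2 * m - 1 ∧ 1 ≤ v.1 - v.2 ∧
        v.1 - v.2 ≤ 2 * k + 2) ∧ lattice.Adj u v := by
  rw [← edgesIn_map (rt_iso m), mem_edgesIn, mem_map_equiv, mem_map_equiv, mem_reg, mem_reg,
    rt_symm_apply, rt_symm_apply]
  simp only
  constructor
  · rintro ⟨h1, h2, h3⟩
    exact ⟨by omega, by omega, h3⟩
  · rintro ⟨h1, h2, h3⟩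
    exact ⟨by omega, by omega, h3⟩

theorem lE_eq (m k : ℕ) {M : ℤ} (h1 : 2 * (m : ℤ) + 1 ≤ M) (h2 : 2 * (k : ℤ) + 2 ≤ M) :
    lE (2 * m + 1) (2 * k + 1) M = lE2 m k M M := by
  ext e
  induction e using Sym2.ind with
  | _ u v =>
    unfold lE lE2
    rw [mem_union, mem_lo, mem_rt, mem_edgesIn, mem_dom, mem_dom, abs_le, abs_le]
    unfold InL
    constructor
    · rintro ⟨g1, g2, h3⟩
      have h5 := adj_level h3
      have h6 := adj_sum h3
      by_cases hc : u.1 - u.2 ≤ 1 ∧ v.1 - v.2 ≤ 1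
      · left; left
        exact ⟨by omega, by omega, h3⟩
      · by_cases hd : u.1 + u.2 ≤ 2 * m ∧ v.1 + v.2 ≤ 2 * m
        · left; right
          exact ⟨by omega, by omega, h3⟩
        · right
          exact ⟨by omega, by omega, h3⟩
    · rintro ((⟨g1, g2, h3⟩ | ⟨g1, g2, h3⟩) | ⟨g1, g2, h3⟩)
      · exact ⟨by omega, by omega, h3⟩
      · exact ⟨by omega, by omega, h3⟩
      · exact ⟨by omega, by omega, h3⟩

lemma lE2_mono {m k : ℕ} {M1 M2 M1' M2' : ℤ} (h1 : M1 ≤ M1') (h2 : M2 ≤ M2') :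
    lE2 m k M1 M2 ⊆ lE2 m k M1' M2' := by
  intro e
  induction e using Sym2.ind with
  | _ u v =>
    unfold lE2
    rw [mem_union, mem_union, mem_lo, mem_lo, mem_rt, mem_rt]
    rintro ((⟨g1, g2, h3⟩ | ⟨g1, g2, h3⟩) | ⟨g1, g2, h3⟩)
    · exact Or.inl (Or.inl ⟨by omega, by omega, h3⟩)
    · exact Or.inl (Or.inr ⟨by omega, by omega, h3⟩)
    · exact Or.inr ⟨by omega, by omega, h3⟩

lemma disjL (m k : ℕ) (a b : ℤ) :
    Disjoint (loE m a (2 * k + 2)) ((edgesIn (reg k 1 b)).map (emb (rt m))) := by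
  rw [Finset.disjoint_left]
  intro e
  induction e using Sym2.ind with
  | _ u v =>
    rw [mem_lo, mem_rt]
    rintro (⟨h1, h2, h3⟩ | ⟨h1, h2, h3⟩) ⟨h4, h5, _⟩
    · have := adj_level h3
      omega
    · have := adj_sum h3
      omega

/-! ### the probability in terms of the laws -/

/-- the probability of the exact event, two truncation parameters -/
noncomputable def pX2 (m k : ℕ) (M1 M2 : ℤ) : ℝ := P (lE2 m k M1 M2) (CrX m k)

lemma pX2_mono {m k : ℕ} {M1 M2 M1' M2' : ℤ} (h1 : M1 ≤ M1') (h2 : M2 ≤ M2') :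
    pX2 m k M1 M2 ≤ pX2 m k M1' M2' :=
  P_mono_up (lE2_mono h1 h2) fun _ _ hω hc => crX_mono hω hc

lemma pX_eq (m k : ℕ) {M : ℤ} (h1 : 2 * (m : ℤ) + 1 ≤ M) (h2 : 2 * (k : ℤ) + 2 ≤ M) :
    pX m k M = pX2 m k M M := by
  unfold pX pX2
  rw [lE_eq m k h1 h2]

theorem pX2_law (m k : ℕ) (M1 M2 : ℤ) :
    pX2 m k M1 M2 =
      lf m k (law (2 * k + 1) (edgesIn (reg k 1 (M1 - 2 * m + 1))) (fr k 0))
        (lawA (LW m) (loE m (-M2) (2 * k + 2)) (gL m k)) := by
  classical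
  set F0 := loE m (-M2) (2 * k + 2) with hF0
  set F2 := edgesIn (reg k 1 (M1 - 2 * m + 1)) with hF2
  have d1 : Disjoint F0 (F2.map (emb (rt m))) := disjL m k _ _
  have e1 : pX2 m k M1 M2 =
      ∑ ω0 ∈ F0.powerset, ∑ ω2 ∈ F2.powerset,
        (1 / 2 : ℝ) ^ #F2 * (1 / 2) ^ #F0 *
          cfL m k (st (2 * k + 1) (fr k 0) ω2) (stA (LW m) (gL m k) ω0) := by
    unfold pX2 P lE2
    rw [← hF0, ← hF2, card_filter, Nat.cast_sum]
    simp only [Nat.cast_ite, Nat.cast_one, Nat.cast_zero]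
    rw [sum_powerset_union d1, card_union_of_disjoint d1, card_map, sum_div]
    refine sum_congr rfl fun ω0 h0 => ?_
    rw [sum_powerset_map, sum_div]
    refine sum_congr rfl fun ω2 h2 => ?_
    rw [mem_powerset] at h0 h2
    have h := crX_iff m k h0 h2
    unfold cfL
    by_cases hc : crossL m k (st (2 * k + 1) (fr k 0) ω2) (stA (LW m) (gL m k) ω0)
    · have h' := h.2 hc
      rw [if_pos hc, if_pos h', pow_add]
      simp only [one_div, inv_pow]
      field_simp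
    · have h' := fun g => hc (h.1 g)
      rw [if_neg hc, if_neg h', zero_div, mul_zero]
  rw [e1]
  unfold law lawA
  rw [map_sum]
  refine sum_congr rfl fun ω0 _ => ?_
  rw [map_sum, LinearMap.sum_apply]
  refine sum_congr rfl fun ω2 _ => ?_
  rw [lf_single]

/-- the probability of the exact event in terms of the transfer matrices -/
theorem pX2_T (m k N : ℕ) :
    pX2 m k (2 * (N : ℤ) + 2 * m) (2 * (N : ℤ) + 1) =
      lf m k (((IP.T k 0) ^ N) (Finsupp.single (IP.bot k) 1))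
        (KL m k (((IP.T m 0) ^ (N + 1)) (Finsupp.single (IP.bot m) 1))) := by
  rw [pX2_law, law_lowL, show 2 * (N : ℤ) + 2 * m - 2 * m + 1 = 2 * N + 1 by ring, law_upper,
    law_lower]

/-! ### the limit -/

lemma lf_expand (m k : ℕ) (A : IP.M →ₗ[ℝ] IP.M) {k1 k2 : ℕ} {w v : IP.M}
    (h1 : w ∈ IP.Sup (IP.W k1)) (h2 : v ∈ IP.Sup (IP.W k2)) :
    lf m k w (A v) =
      ∑ t ∈ (IP.W_finite k1).toFinset, ∑ σ ∈ (IP.W_finite k2).toFinset, w t * (v σ *
          lf m k (Finsupp.single t 1) (A (Finsupp.single σ 1))) := by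
  conv_lhs => rw [Sup_expand h1, Sup_expand h2]
  rw [map_sum (lf m k), LinearMap.sum_apply]
  refine sum_congr rfl fun t _ => ?_
  rw [map_smul, LinearMap.smul_apply, map_sum, map_sum, smul_eq_mul, mul_sum]
  refine sum_congr rfl fun σ _ => ?_
  rw [map_smul, map_smul, smul_eq_mul]

/-- **The probability of the exact crossing event in the infinite corridor** (`L = 2m+1`, `h = 2k+1`) is the
bilinear form of the two stationary vectors. -/
theorem pX_tendsto (m k : ℕ) :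
    Tendsto (fun M : ℕ => pX m k M) atTop (𝓝 (lf m k (IP.P k 0) (KL m k (IP.P m 0)))) := by
  have hb : ∀ n, Finsupp.single (IP.bot n) (1 : ℝ) ∈ IP.Sup (IP.W n) := by
    intro n
    apply Finsupp.single_mem_supported
    exact IP.bot_W n
  have h2 : Tendsto (fun N : ℕ => pX2 m k (2 * (N : ℤ) + 2 * m) (2 * (N : ℤ) + 1)) atTop
      (𝓝 (lf m k (IP.P k 0) (KL m k (IP.P m 0)))) := by
    rw [lf_expand m k (KL m k) (IP.P_Sup k 0) (IP.P_Sup m 0)]
    have e : (fun N : ℕ => pX2 m k (2 * (N : ℤ) + 2 * m) (2 * (N : ℤ) + 1)) = fun N =>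
        ∑ t ∈ (IP.W_finite k).toFinset, ∑ σ ∈ (IP.W_finite m).toFinset,
          (((IP.T k 0) ^ N) (Finsupp.single (IP.bot k) 1)) t *
          ((((IP.T m 0) ^ (N + 1)) (Finsupp.single (IP.bot m) 1)) σ *
            lf m k (Finsupp.single t 1) (KL m k (Finsupp.single σ 1))) := by
      funext N
      rw [pX2_T, lf_expand m k (KL m k) (IP.PG.T_pow_Sup k 0 _ (hb k)) (IP.PG.T_pow_Sup m 0 _ (hb m))]
    rw [e]
    refine tendsto_finsetSum _ fun t _ => tendsto_finsetSum _ fun σ _ => ?_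
    exact (IP.Slit.T_pow_tendsto k t).mul
      (((IP.Slit.T_pow_tendsto m σ).comp (tendsto_add_atTop_nat 1)).mul tendsto_const_nhds)
  have hmono : Monotone (fun M : ℕ => pX m k (M : ℤ)) := by
    intro M M' hM
    exact pX_mono (by exact_mod_cast hM)
  have hsub : Tendsto (fun N : ℕ => 2 * N + 2 * m + 1) atTop atTop :=
    tendsto_atTop_mono (fun N => by simp only [id]; omega) tendsto_id
  rw [tendsto_iff_tendsto_subseq_of_monotone hmono hsub]
  have h3 : Tendsto (fun N : ℕ => pX2 m k (2 * ((N + (m + 1) : ℕ) : ℤ) + 2 * m)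
      (2 * ((N + (m + 1) : ℕ) : ℤ) + 1)) atTop (𝓝 (lf m k (IP.P k 0) (KL m k (IP.P m 0)))) :=
    h2.comp (tendsto_add_atTop_nat (m + 1))
  refine tendsto_of_tendsto_of_tendsto_of_le_of_le' h2 h3 ?_ ?_
  · filter_upwards [eventually_ge_atTop (k + 1)] with N hN
    simp only [Function.comp_apply]
    rw [pX_eq m k (by push_cast; omega) (by push_cast; omega)]
    exact pX2_mono (by push_cast; omega) (by push_cast; omega)
  · filter_upwards [eventually_ge_atTop (k + 1)] with N hN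
    simp only [Function.comp_apply]
    rw [pX_eq m k (by push_cast; omega) (by push_cast; omega)]
    exact pX2_mono (by push_cast; omega) (by push_cast; omega)

end H47Perc.LN
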