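import Pool.Agent.Helper45.LGeo.JSweep
import Pool.Agent.Helper45.LGeo.Prob

/-!
The crossing probability of the L-shaped corridor in the J-frame.
-/

set_option autoImplicit false

namespace H47Perc.LN
open Finset Filter Topology SimpleGraph H47Perc.DS H47Perc.SL H47Perc.JJ
open Pool.Agent.Helper69.RSW (P)

/-- the sites of the lower leg in its own numbering -/
def phJ (m x : ℕ) : ℕ := if x = 0 then m else x - 1

/-- the two states side by side: site `0` is the wall of `s`, the sites `1, ..., m` are the sites of `s`, the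
sites `m+1+j` are the sites of `t` -/
def gj (m : ℕ) (s t : IP.St) : IP.St where
  r x y := (x ≤ m ∧ y ≤ m ∧ s (phJ m x) (phJ m y)) ∨
    (m + 1 ≤ x ∧ m + 1 ≤ y ∧ t (x - m - 1) (y - m - 1))
  iseqv := by
    refine ⟨fun x => ?_, ?_, ?_⟩
    · by_cases h : x ≤ m
      · exact Or.inl ⟨h, h, s.refl _⟩
      · exact Or.inr ⟨by omega, by omega, t.refl _⟩
    · rintro x y (⟨h1, h2, h3⟩ | ⟨h1, h2, h3⟩)
      · exact Or.inl ⟨h2, h1, s.symm h3⟩
      · exact Or.inr ⟨h2, h1, t.symm h3⟩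
    · rintro x y z (⟨h1, h2, h3⟩ | ⟨h1, h2, h3⟩) (⟨h4, h5, h6⟩ | ⟨h4, h5, h6⟩)
      · exact Or.inl ⟨h1, h5, s.trans h3 h6⟩
      · omega
      · omega
      · exact Or.inr ⟨h1, h5, t.trans h3 h6⟩

lemma gj_iff {m x y : ℕ} {s t : IP.St} : gj m s t x y ↔ (x ≤ m ∧ y ≤ m ∧ s (phJ m x) (phJ m y)) ∨
    (m + 1 ≤ x ∧ m + 1 ≤ y ∧ t (x - m - 1) (y - m - 1)) := Iff.rfl

/-- the base relation: the two legs -/
def BB (m k : ℕ) (ω0 ω2 : Finset (Sym2 (ℤ × ℤ))) : Setoid (ℤ × ℤ) :=
  R0 m ω0 ⊔ cs (TR m k) (ω2.map (emb (rt m)))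

section
variable {m k : ℕ} {a b : ℤ} {ω0 ω1 ω2 : Finset (Sym2 (ℤ × ℤ))}

lemma low_level (h0 : ω0 ⊆ edgesIn (reg m a 1)) {u v : ℤ × ℤ} (h : s(u, v) ∈ ω0) :
    u.1 - u.2 ≤ 1 := (edge_reg h0 h).2.2.2

lemma BB_free (h0 : ω0 ⊆ edgesIn (reg m a 1)) (h2 : ω2 ⊆ edgesIn (reg k 1 b)) :
    Free m (BB m k ω0 ω2) := by
  intro z hz1 hz2
  unfold BB
  apply sup_isolated
  · apply R0_iso
    · intro v hv
      have := low_level h0 hv
      omega
    · intro hz
      rw [mem_LW] at hz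
      omega
  · intro z' hz'
    refine cs_isolated ?_ ?_ hz'
    · intro v hv
      have := rt_edge h2 hv
      omega
    · intro hz
      rw [mem_TR] at hz
      omega

lemma jf_low {x : ℕ} (hx : x ≤ m) : (jf m k 0 x).1 + (jf m k 0 x).2 < 2 * m ∨ (jf m k 0 x).1 - (jf m k 0 x).2 < 1 := by
  by_cases h0 : x = 0
  · right
    rw [h0, jf_zero, wal_level]
    norm_num
  · left
    rw [jf_le (by omega) hx]
    simp only
    omega

lemma jf_right {x : ℕ} (hx : m + 1 ≤ x) : jf m k 0 x = rt m (fr k 0 (x - m - 1)) := by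
  rw [jf_gt (by omega), rt_apply, fr_zero]
  unfold rp
  by_cases h : x + 0 ≤ m + k
  · rw [if_pos h, min_eq_left (by omega)]
    ext <;> simp only <;> omega
  · rw [if_neg h, min_eq_right (by omega)]
    ext <;> simp only <;> omega

/-- the site in the numbering of the lower leg -/
lemma jf_cs (ω : Finset (Sym2 (ℤ × ℤ))) {x : ℕ} (hx : x ≤ m) :
    cs (LW m) ω (jf m k 0 x) (fr m 0 (phJ m x)) := by
  unfold phJ
  by_cases h0 : x = 0
  · rw [if_pos h0, h0, jf_zero, fr0_apply le_rfl]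
    exact cs_wall (wal_LW m) (cor_LW m)
  · rw [if_neg h0, jf_le (by omega) hx, fr0_apply (by omega)]
    have e : ((x : ℤ) + (0 : ℕ), (x : ℤ) - 1 - (0 : ℕ)) = (((x - 1 : ℕ) : ℤ) + 1, ((x - 1 : ℕ) : ℤ)) := by
      ext
      · simp only
        omega
      · simp only
        omega
    rw [e]

lemma jf_ne {x : ℕ} : jf m k 0 x ≠ cor m := by
  by_cases h0 : x = 0
  · rw [h0, jf_zero]
    exact wal_ne m
  · by_cases hx : x ≤ m
    · rw [jf_le (by omega) hx]
      apply cor_ne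
      simp only
      omega
    · rw [jf_gt (by omega)]
      apply cor_ne
      have := rp_sum m k 0 x
      omega

lemma level_le {x : ℕ} (hx : x ≤ m) : (fr m 0 x).1 - (fr m 0 x).2 ≤ 1 := by
  rw [fr_zero]
  simp only
  omega

lemma jf_R0 (h0 : ω0 ⊆ edgesIn (reg m a 1)) {x y : ℕ} (hx : x ≤ m) (hy : y ≤ m) :
    R0 m ω0 (jf m k 0 x) (jf m k 0 y) ↔ st (2 * m + 1) (fr m 0) ω0 (phJ m x) (phJ m y) := by
  have key : cs (LW m) ω0 (jf m k 0 x) (jf m k 0 y) ↔
      cs (LW m) ω0 (fr m 0 (phJ m x)) (fr m 0 (phJ m y)) := by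
    constructor
    · intro h
      exact (cs _ _).trans ((cs _ _).symm (jf_cs ω0 hx)) ((cs _ _).trans h (jf_cs ω0 hy))
    · intro h
      exact (cs _ _).trans (jf_cs ω0 hx) ((cs _ _).trans h ((cs _ _).symm (jf_cs ω0 hy)))
  have hph : ∀ z, z ≤ m → phJ m z ≤ m := by
    intro z hz
    unfold phJ
    split_ifs <;> omega
  rw [R0_iff]
  change _ ↔ cw (2 * m + 1) ω0 (fr m 0 (phJ m x)) (fr m 0 (phJ m y))
  constructor
  · rintro (h | ⟨_, _, h⟩)
    · apply csL_le_cw
      rw [← key, h]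
    · exact csL_le_cw _ _ (key.1 h)
  · intro h
    refine Or.inr ⟨jf_ne, jf_ne, key.2 ?_⟩
    exact csL_of_cw (fun u v huv => low_level h0 huv) (level_le (hph x hx)) (level_le (hph y hy)) h

lemma jf_TR (h2 : ω2 ⊆ edgesIn (reg k 1 b)) {x y : ℕ} (hx : m + 1 ≤ x) (hy : m + 1 ≤ y) :
    cs (TR m k) (ω2.map (emb (rt m))) (jf m k 0 x) (jf m k 0 y) ↔
      st (2 * k + 1) (fr k 0) ω2 (x - m - 1) (y - m - 1) := by
  rw [jf_right hx, jf_right hy, cs_map_iff (rt_mem m k)]
  change _ ↔ cw (2 * k + 1) ω2 (fr k 0 (x - m - 1)) (fr k 0 (y - m - 1))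
  constructor
  · exact fun h => cs_le_cw _ _ h
  · intro h
    refine cs_of_cw (fun u v huv => (edge_reg h2 huv).2.2.1) ?_ ?_ h
    · rw [fr_zero]; simp only; omega
    · rw [fr_zero]; simp only; omega

lemma jf_iso_right (h0 : ω0 ⊆ edgesIn (reg m a 1)) {x : ℕ} (hx : m + 1 ≤ x) :
    ∀ z', R0 m ω0 (jf m k 0 x) z' → z' = jf m k 0 x := by
  have hl : 2 ≤ (jf m k 0 x).1 - (jf m k 0 x).2 := by
    rw [jf_gt (by omega)]
    unfold rp
    split_ifs
    · simp only; omega
    · simp only; omega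
  apply R0_iso
  · intro v hv
    have := low_level h0 hv
    omega
  · intro hz
    rw [mem_LW] at hz
    omega

lemma jf_iso_left (h2 : ω2 ⊆ edgesIn (reg k 1 b)) {x : ℕ} (hx : x ≤ m) :
    ∀ z', cs (TR m k) (ω2.map (emb (rt m))) (jf m k 0 x) z' → z' = jf m k 0 x := by
  have hl := jf_low (k := k) hx
  intro z' hz'
  refine cs_isolated ?_ ?_ hz'
  · intro v hv
    have := rt_edge h2 hv
    omega
  · intro hz
    rw [mem_TR] at hz
    omega

lemma jf_inj {x y : ℕ} (h : jf m k 0 x = jf m k 0 y) : x = y ∨ (m + k < x ∧ m + k < y) := by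
  have key : ∀ i, (i = 0 ∧ jf m k 0 i = ((m : ℤ), (m : ℤ) + 1)) ∨
      (1 ≤ i ∧ i ≤ m ∧ jf m k 0 i = ((i : ℤ), (i : ℤ) - 1)) ∨
      (m < i ∧ i ≤ m + k ∧ jf m k 0 i = ((i : ℤ), 2 * (m : ℤ) - i)) ∨
      (m + k < i ∧ jf m k 0 i = ((m : ℤ) + k + 1, (m : ℤ) - k - 1)) := by
    intro i
    by_cases h0 : i = 0
    · exact Or.inl ⟨h0, by rw [h0, jf_zero]; rfl⟩
    by_cases h1 : i ≤ m
    · exact Or.inr (Or.inl ⟨by omega, h1, by rw [jf_le (by omega) h1]; ext <;> simp⟩)
    by_cases h2 : i ≤ m + k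
    · refine Or.inr (Or.inr (Or.inl ⟨by omega, h2, ?_⟩))
      rw [jf_gt (by omega)]
      unfold rp
      rw [if_pos (by omega)]
      ext <;> simp
    · refine Or.inr (Or.inr (Or.inr ⟨by omega, ?_⟩))
      rw [jf_gt (by omega)]
      unfold rp
      rw [if_neg (by omega)]
  rcases key x with ⟨hx, ex⟩ | ⟨hx, hx', ex⟩ | ⟨hx, hx', ex⟩ | ⟨hx, ex⟩ <;>
    rcases key y with ⟨hy, ey⟩ | ⟨hy, hy', ey⟩ | ⟨hy, hy', ey⟩ | ⟨hy, ey⟩ <;>
    (rw [ex, ey, Prod.mk.injEq] at h; omega)

/-- the state of the two legs on the sites -/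
lemma comap_BB (h0 : ω0 ⊆ edgesIn (reg m a 1)) (h2 : ω2 ⊆ edgesIn (reg k 1 b)) :
    Setoid.comap (jf m k 0) (BB m k ω0 ω2) =
      gj m (st (2 * m + 1) (fr m 0) ω0) (st (2 * k + 1) (fr k 0) ω2) := by
  have e : Setoid.comap (jf m k 0) (BB m k ω0 ω2) = Setoid.comap (jf m k 0) (R0 m ω0) ⊔
      Setoid.comap (jf m k 0) (cs (TR m k) (ω2.map (emb (rt m)))) := by
    unfold BB
    apply IP.PG.comap_sup
    intro z
    by_cases hz : 2 * (m : ℤ) ≤ z.1 + z.2 ∧ 1 ≤ z.1 - z.2
    · left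
      by_cases hc : z = cor m
      · rw [hc]
        exact R0_iso_cor m ω0
      · apply R0_iso
        · intro v hv
          have h3 := edge_reg h0 hv
          apply hc
          unfold cor
          ext
          · simp only; omega
          · simp only; omega
        · intro hz'
          rw [mem_LW] at hz'
          apply hc
          unfold cor
          ext
          · simp only; omega
          · simp only; omega
    · right; left
      intro z' hz'
      refine cs_isolated ?_ ?_ hz'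
      · intro v hv
        have := rt_edge h2 hv
        omega
      · intro hz2
        rw [mem_TR] at hz2
        omega
  rw [e]
  apply le_antisymm
  · apply sup_le
    · intro x y hxy
      rw [Setoid.comap_rel] at hxy
      rw [gj_iff]
      by_cases hx : x ≤ m
      · by_cases hy : y ≤ m
        · exact Or.inl ⟨hx, hy, (jf_R0 h0 hx hy).1 hxy⟩
        · have := jf_iso_right (k := k) h0 (show m + 1 ≤ y by omega) _ ((R0 m ω0).symm hxy)
          rcases jf_inj this with h3 | h3 <;> omega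
      · have := jf_iso_right (k := k) h0 (show m + 1 ≤ x by omega) _ hxy
        rcases jf_inj this with h3 | h3
        · rw [h3]
          exact Or.inr ⟨by omega, by omega, Setoid.refl' _ _⟩
        · refine Or.inr ⟨by omega, by omega, ?_⟩
          rw [← jf_TR (m := m) h2 (by omega) (by omega), this]
    · intro x y hxy
      rw [Setoid.comap_rel] at hxy
      rw [gj_iff]
      by_cases hx : x ≤ m
      · have := jf_iso_left (m := m) h2 hx _ hxy
        rcases jf_inj this with h3 | h3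
        · rw [h3]
          exact Or.inl ⟨by omega, by omega, Setoid.refl' _ _⟩
        · omega
      · by_cases hy : y ≤ m
        · have := jf_iso_left (m := m) h2 hy _ ((cs _ _).symm hxy)
          rcases jf_inj this with h3 | h3 <;> omega
        · exact Or.inr ⟨by omega, by omega, (jf_TR h2 (by omega) (by omega)).1 hxy⟩
  · intro x y hxy
    rw [gj_iff] at hxy
    rcases hxy with ⟨hx, hy, h⟩ | ⟨hx, hy, h⟩
    · apply (le_sup_left : Setoid.comap (jf m k 0) (R0 m ω0) ≤ _)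
      rw [Setoid.comap_rel]
      exact (jf_R0 h0 hx hy).2 h
    · apply (le_sup_right : Setoid.comap (jf m k 0) (cs (TR m k) (ω2.map (emb (rt m)))) ≤ _)
      rw [Setoid.comap_rel]
      exact (jf_TR h2 hx hy).2 h

/-! ### the crossing event -/

lemma R0_union (h1 : ω1 ⊆ edgesIn (rl m 1 (2 * k + 2))) :
    R0 m (ω0 ∪ ω1) = R0 m ω0 ⊔ cs ∅ ω1 := by
  have hc : ∀ u v : ℤ × ℤ, s(u, v) ∈ ω1 → u ≠ cor m := by
    intro u v huv
    have := mem_rl.1 (mem_edgesIn.1 (h1 huv)).1
    apply cor_ne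
    omega
  apply le_antisymm
  · set S := R0 m ω0 ⊔ cs ∅ ω1 with hS
    classical
    set r : ℤ × ℤ → ℤ × ℤ := fun z => if z = cor m then wal m else z with hr
    have hr1 : ∀ z, r z ≠ cor m := by
      intro z
      simp only [hr]
      split_ifs with h
      · exact wal_ne m
      · exact h
    have hr2 : ∀ z, z ≠ cor m → r z = z := by
      intro z hz
      simp only [hr]
      rw [if_neg hz]
    have hr3 : ∀ z, cs (LW m) ω0 z (r z) := by
      intro z
      simp only [hr]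
      split_ifs with h
      · rw [h]
        exact cs_wall (cor_LW m) (wal_LW m)
      · exact (cs _ _).refl _
    have hle : cs (LW m) (ω0 ∪ ω1) ≤ Setoid.comap r S := by
      rw [cs_le_iff]
      constructor
      · intro u v huv
        rw [Setoid.comap_rel]
        rw [mem_union] at huv
        rcases huv with huv | huv
        · refine (le_sup_left : R0 m ω0 ≤ S) (Or.inr ⟨hr1 u, hr1 v, ?_⟩)
          exact (cs _ _).trans ((cs _ _).symm (hr3 u)) ((cs _ _).trans (cs_edge huv) (hr3 v))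
        · rw [hr2 u (hc u v huv), hr2 v (hc v u (by rw [Sym2.eq_swap]; exact huv))]
          exact (le_sup_right : cs ∅ ω1 ≤ S) (cs_edge huv)
      · intro u v hu hv
        rw [Setoid.comap_rel]
        refine (le_sup_left : R0 m ω0 ≤ S) (Or.inr ⟨hr1 u, hr1 v, ?_⟩)
        exact (cs _ _).trans ((cs _ _).symm (hr3 u)) ((cs _ _).trans (cs_wall hu hv) (hr3 v))
    rintro x y (h | ⟨hx, hy, h⟩)
    · rw [h]
    · have := hle h
      rw [Setoid.comap_rel, hr2 x hx, hr2 y hy] at this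
      exact this
  · apply sup_le
    · rintro x y (h | ⟨hx, hy, h⟩)
      · exact Or.inl h
      · exact Or.inr ⟨hx, hy, cs_mono subset_union_left h⟩
    · rw [cs_le_iff]
      constructor
      · intro u v huv
        exact Or.inr ⟨hc u v huv, hc v u (by rw [Sym2.eq_swap]; exact huv),
          cs_edge (mem_union_right _ huv)⟩
      · intro u v hu
        exact absurd hu (Set.notMem_empty u)

/-- all sites `≥ 1` are joined -/
def tj : IP.St where
  r x y := x = y ∨ (1 ≤ x ∧ 1 ≤ y)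
  iseqv := by
    refine ⟨fun x => Or.inl rfl, ?_, ?_⟩
    · rintro x y (rfl | ⟨h1, h2⟩)
      · exact Or.inl rfl
      · exact Or.inr ⟨h2, h1⟩
    · rintro x y z (rfl | ⟨h1, h2⟩) (rfl | ⟨h3, h4⟩)
      · exact Or.inl rfl
      · exact Or.inr ⟨h3, h4⟩
      · exact Or.inr ⟨h1, h2⟩
      · exact Or.inr ⟨h1, h4⟩

lemma tj_iff {x y : ℕ} : tj x y ↔ x = y ∨ (1 ≤ x ∧ 1 ≤ y) := Iff.rfl

lemma hf_TT {x : ℕ} : hf m k k x ∈ TT m k ↔ 1 ≤ x := by
  constructor
  · intro h
    by_contra h0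
    rw [show x = 0 by omega, hf_zero, mem_TT] at h
    have := wal_level m
    omega
  · intro h
    rw [mem_TT]
    by_cases hx : x ≤ m + 1
    · rw [hf_le le_rfl h hx]
      simp only
      omega
    · rw [hf_gt (by omega)]
      unfold rp
      rw [if_neg (by omega)]
      simp only
      omega

lemma comap_hf_TT : Setoid.comap (hf m k k) (cs (TT m k) ∅) = tj := by
  ext x y
  rw [Setoid.comap_rel, cs_empty, hf_TT, hf_TT, tj_iff]
  constructor
  · rintro (h | h)
    · by_cases hx : 1 ≤ x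
      · have h3 : hf m k k x ∈ TT m k := hf_TT.2 hx
        rw [h] at h3
        exact Or.inr ⟨hx, hf_TT.1 h3⟩
      · by_cases hy : 1 ≤ y
        · have h3 : hf m k k y ∈ TT m k := hf_TT.2 hy
          rw [← h] at h3
          exact absurd (hf_TT.1 h3) hx
        · exact Or.inl (by omega)
    · exact Or.inr h
  · rintro (h | h)
    · exact Or.inl (by rw [h])
    · exact Or.inr h

lemma glL_cB (h1 : ω1 ⊆ edgesIn (rl m 1 (2 * k + 2))) :
    glL m k (ω0 ∪ ω1) ω2 = cB (BB m k ω0 ω2) ω1 ⊔ cs (TT m k) ∅ := by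
  unfold glL cB BB
  rw [R0_union h1]
  apply le_antisymm
  · refine sup_le (sup_le (sup_le ?_ ?_) ?_) ?_
    · exact le_sup_left.trans (le_sup_left.trans le_sup_left)
    · exact le_sup_right.trans le_sup_left
    · exact le_sup_right
    · exact le_sup_right.trans (le_sup_left.trans le_sup_left)
  · refine sup_le (sup_le (sup_le ?_ ?_) ?_) ?_
    · exact le_sup_left.trans (le_sup_left.trans le_sup_left)
    · exact le_sup_right
    · exact le_sup_right.trans (le_sup_left.trans le_sup_left)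
    · exact le_sup_right.trans le_sup_left

theorem crX_iff_J (h0 : ω0 ⊆ edgesIn (reg m a 1)) (h1 : ω1 ⊆ edgesIn (rl m 1 (2 * k + 2)))
    (h2 : ω2 ⊆ edgesIn (reg k 1 b)) :
    CrX m k (ω0 ∪ ω1 ∪ ω2.map (emb (rt m))) ↔
      (stB (BB m k ω0 ω2) (hf m k k) ω1 ⊔ tj) 0 1 := by
  have h01 : ω0 ∪ ω1 ⊆ loE m a (2 * k + 2) := by
    unfold loE
    exact union_subset_union h0 h1
  rw [crX_iff_gl m k h01 h2, glL_cB h1]
  have e : stB (BB m k ω0 ω2) (hf m k k) ω1 ⊔ tj =
      Setoid.comap (hf m k k) (cB (BB m k ω0 ω2) ω1 ⊔ cs (TT m k) ∅) := by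
    rw [IP.PG.comap_sup, comap_hf_TT]
    · rfl
    · intro z
      by_cases hz : z ∈ TT m k
      · right; right
        have h3 := hz
        rw [mem_TT] at h3
        refine ⟨(z.1 - k).toNat, ?_⟩
        have e : (((z.1 - k).toNat : ℕ) : ℤ) = z.1 - k := Int.toNat_of_nonneg (by omega)
        have e2 : hf m k k (z.1 - k).toNat = z := by
          rw [hf_le le_rfl (by omega) (by omega), e]
          ext
          · simp only; omega
          · simp only; omega
        rw [e2]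
        exact ⟨(cB _ _).refl _, (cs _ _).refl _⟩
      · right; left
        intro z' hz'
        exact cs_isolated (fun u => Finset.notMem_empty _) hz hz'
  rw [e]
  change _ ↔ (cB (BB m k ω0 ω2) ω1 ⊔ cs (TT m k) ∅) (hf m k k 0) (hf m k k 1)
  rw [hf_zero, frL_wall (show m + k < m + k + 1 by omega)]
  have hT : cs (TT m k) ∅ (frL m k m) (hf m k k 1) := cs_wall (frL_TT.2 le_rfl) (hf_TT.2 le_rfl)
  have hT' := (le_sup_right : cs (TT m k) ∅ ≤ cB (BB m k ω0 ω2) ω1 ⊔ cs (TT m k) ∅) hT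
  constructor
  · intro h
    exact Setoid.trans' _ (Setoid.symm' _ h) hT'
  · intro h
    exact Setoid.trans' _ hT' (Setoid.symm' _ h)

end

/-! ### the top caps -/

lemma del3_tj (σ : IP.St) : (IP.del 3 σ ⊔ tj) 0 1 ↔ (σ ⊔ tj) 0 1 := by
  have e0 : IP.del 3 σ = Setoid.comap (IP.skip 2) (IP.join 1 2 σ) := IP.del_odd 1 σ
  have e1 : Setoid.comap (IP.skip 2) tj = tj := by
    ext x y
    rw [Setoid.comap_rel, tj_iff, tj_iff]
    unfold IP.skip
    split_ifs <;> omega
  have e2 : Setoid.comap (IP.skip 2) (IP.join 1 2 σ ⊔ tj) = IP.del 3 σ ⊔ tj := by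
    rw [IP.PG.comap_sup, e1, e0]
    intro z
    right; right
    by_cases hz : z = 2
    · refine ⟨1, ?_, ?_⟩
      · rw [hz]
        exact Setoid.symm' _ (IP.join_rel 1 2 σ)
      · rw [hz]
        exact Or.inr ⟨by omega, by unfold IP.skip; norm_num⟩
    · refine ⟨IP.unskip 2 z, ?_, ?_⟩
      · rw [IP.skip_unskip hz]
      · rw [IP.skip_unskip hz]
  have e3 : IP.join 1 2 σ ⊔ tj = σ ⊔ tj := by
    apply le_antisymm
    · apply sup_le _ le_sup_right
      rw [IP.join_le_iff]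
      exact ⟨le_sup_left, (le_sup_right : tj ≤ σ ⊔ tj) (Or.inr ⟨le_rfl, by omega⟩)⟩
    · exact sup_le_sup_right (IP.le_join 1 2 σ) _
  rw [← e2, Setoid.comap_rel, e3]
  exact Iff.rfl

lemma del3_iter (m : ℕ) : ∀ {σ : IP.St}, σ ∈ IP.W (m + 1) →
    (((IP.del 3)^[m] σ) 0 1 ↔ (σ ⊔ tj) 0 1) := by
  induction m with
  | zero =>
    intro σ hσ
    have e : σ ⊔ tj = σ := by
      apply sup_eq_left.2
      rintro x y (h | ⟨h1, h2⟩)
      · rw [h]
      · exact hσ x y (by omega) (by omega)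
    rw [e]
    rfl
  | succ m ih =>
    intro σ hσ
    rw [Function.iterate_succ_apply, ih (IP.del_W (by omega) hσ), del3_tj]

/-! ### the probability -/

open Classical in
/-- the event: site `0` is joined to site `1` -/
noncomputable def ind01 : IP.M →ₗ[ℝ] ℝ :=
  Finsupp.lsum ℝ fun σ => (if σ 0 1 then (1 : ℝ) else 0) • LinearMap.id

/-- the two vectors side by side -/
noncomputable def GJ (m : ℕ) : IP.M →ₗ[ℝ] IP.M →ₗ[ℝ] IP.M :=
  Finsupp.lsum ℝ fun s => LinearMap.toSpanSingleton ℝ (IP.M →ₗ[ℝ] IP.M)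
    (Finsupp.lmapDomain ℝ ℝ (gj m s))

lemma GJ_single (m : ℕ) (s t : IP.St) (x y : ℝ) :
    GJ m (Finsupp.single s x) (Finsupp.single t y) = Finsupp.single (gj m s t) (x * y) := by
  unfold GJ
  rw [Finsupp.lsum_single, LinearMap.toSpanSingleton_apply, LinearMap.smul_apply,
    Finsupp.lmapDomain_apply, Finsupp.mapDomain_single, Finsupp.smul_single, smul_eq_mul]

/-- the operator of the corner rectangle in the J-frame -/
noncomputable def TJ (m k : ℕ) : IP.M →ₗ[ℝ] IP.M := (IP.De 3 ^ m) ∘ₗ rw0 2 (2 * m) ∘ₗ (RW m ^ k)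

lemma De3_single (m : ℕ) (σ : IP.St) (x : ℝ) :
    (IP.De 3 ^ m) (Finsupp.single σ x) = Finsupp.single ((IP.del 3)^[m] σ) x := by
  induction m with
  | zero => rfl
  | succ m ih => rw [pow_succ', Module.End.mul_apply, ih, IP.De_single, Function.iterate_succ_apply']

lemma hf_W (m k : ℕ) (B : Setoid (ℤ × ℤ)) (ω : Finset (Sym2 (ℤ × ℤ))) :
    stB B (hf m k k) ω ∈ IP.W (m + 1) := by
  intro x y hx hy
  rw [stB_rel]
  have e : ∀ z, m + 1 ≤ z → hf m k k z = ((m : ℤ) + k + 1, (m : ℤ) - k - 1) := by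
    intro z hz
    rw [hf_gt (by omega)]
    unfold rp
    rw [if_neg (by omega)]
  rw [e x hx, e y hy]

/-- for fixed configurations of the two legs -/
lemma TJ_single (m k : ℕ) {a b : ℤ} {ω0 ω2 : Finset (Sym2 (ℤ × ℤ))} (h0 : ω0 ⊆ edgesIn (reg m a 1))
    (h2 : ω2 ⊆ edgesIn (reg k 1 b)) :
    ind01 (TJ m k (Finsupp.single (gj m (st (2 * m + 1) (fr m 0) ω0) (st (2 * k + 1) (fr k 0) ω2)) 1)) =
      P (edgesIn (rl m 1 (2 * k + 2))) (fun ω1 => CrX m k (ω0 ∪ ω1 ∪ ω2.map (emb (rt m)))) := by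
  classical
  unfold TJ
  rw [← comap_BB h0 h2, LinearMap.comp_apply, LinearMap.comp_apply, ← lawJ m k (BB_free h0 h2)]
  unfold lawB P
  rw [map_sum, map_sum, card_filter, Nat.cast_sum, sum_div]
  refine sum_congr rfl fun ω1 h1 => ?_
  rw [mem_powerset] at h1
  have h := (crX_iff_J h0 h1 h2).trans (del3_iter m (hf_W m k (BB m k ω0 ω2) ω1)).symm
  rw [De3_single]
  unfold ind01
  rw [Finsupp.lsum_single, LinearMap.smul_apply, LinearMap.id_apply, smul_eq_mul]
  by_cases hc : CrX m k (ω0 ∪ ω1 ∪ ω2.map (emb (rt m)))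
  · rw [if_pos (h.1 hc), if_pos hc]
    simp
  · rw [if_neg (fun g => hc (h.2 g)), if_neg hc]
    simp

lemma disj_rl (m : ℕ) (a b : ℤ) : Disjoint (edgesIn (reg m a 1)) (edgesIn (rl m 1 b)) := by
  rw [Finset.disjoint_left]
  intro e
  induction e using Sym2.ind with
  | _ u v =>
    rw [mem_edgesIn, mem_edgesIn, mem_reg, mem_reg, mem_rl, mem_rl]
    rintro ⟨h1, h2, h3⟩ ⟨h4, h5, _⟩
    have := adj_level h3
    omega

/-- the probability in terms of the laws of the two legs -/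
theorem pX2_lawJ (m k : ℕ) (M1 M2 : ℤ) :
    pX2 m k M1 M2 = ind01 (TJ m k (GJ m (law (2 * m + 1) (edgesIn (reg m (-M2) 1)) (fr m 0))
      (law (2 * k + 1) (edgesIn (reg k 1 (M1 - 2 * m + 1))) (fr k 0)))) := by
  classical
  set F0 := edgesIn (reg m (-M2) 1) with hF0
  set F1 := edgesIn (rl m 1 (2 * k + 2)) with hF1
  set F2 := edgesIn (reg k 1 (M1 - 2 * m + 1)) with hF2
  have d1 : Disjoint F0 F1 := disj_rl m _ _
  have d2 : Disjoint (F0 ∪ F1) (F2.map (emb (rt m))) := disjL m k (-M2) _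
  have e1 : pX2 m k M1 M2 = ∑ ω0 ∈ F0.powerset, ∑ ω2 ∈ F2.powerset,
      (1 / 2 : ℝ) ^ #F0 * (1 / 2) ^ #F2 *
        P F1 (fun ω1 => CrX m k (ω0 ∪ ω1 ∪ ω2.map (emb (rt m)))) := by
    unfold pX2 P lE2 loE
    rw [← hF0, ← hF1, ← hF2, card_filter, Nat.cast_sum]
    simp only [Nat.cast_ite, Nat.cast_one, Nat.cast_zero]
    rw [sum_powerset_union d2, sum_powerset_union d1, card_union_of_disjoint d2,
      card_union_of_disjoint d1, card_map, sum_div]
    refine sum_congr rfl fun ω0 h0 => ?_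
    have e3 : ∀ ω1 ∈ F1.powerset, ∑ T ∈ (F2.map (emb (rt m))).powerset,
        (if CrX m k (ω0 ∪ ω1 ∪ T) then (1 : ℝ) else 0) =
        ∑ ω2 ∈ F2.powerset, (if CrX m k (ω0 ∪ ω1 ∪ ω2.map (emb (rt m))) then (1 : ℝ) else 0) := by
      intro ω1 _
      rw [sum_powerset_map]
    rw [sum_congr rfl e3, sum_comm, sum_div]
    refine sum_congr rfl fun ω2 h2 => ?_
    rw [card_filter, Nat.cast_sum]
    simp only [Nat.cast_ite, Nat.cast_one, Nat.cast_zero]
    rw [pow_add, pow_add]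
    simp only [one_div, inv_pow]
    field_simp
  rw [e1]
  unfold law
  simp only [map_sum, LinearMap.sum_apply, GJ_single]
  rw [sum_comm]
  refine sum_congr rfl fun ω2 h2 => sum_congr rfl fun ω0 h0 => ?_
  rw [mem_powerset] at h0 h2
  rw [← TJ_single m k h0 h2, ← smul_eq_mul, ← map_smul, ← map_smul, Finsupp.smul_single, smul_eq_mul,
    mul_one]

/-- **The probability of the exact crossing event in the infinite corridor**, in the J-frame. -/
theorem pX_tendstoJ (m k : ℕ) :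
    Tendsto (fun M : ℕ => pX m k M) atTop (𝓝 (ind01 (TJ m k (GJ m (IP.P m 0) (IP.P k 0))))) := by
  have hb : ∀ n, Finsupp.single (IP.bot n) (1 : ℝ) ∈ IP.Sup (IP.W n) := by
    intro n
    apply Finsupp.single_mem_supported
    exact IP.bot_W n
  have hexp : ∀ {v w : IP.M}, v ∈ IP.Sup (IP.W m) → w ∈ IP.Sup (IP.W k) →
      ind01 (TJ m k (GJ m v w)) = ∑ σ ∈ (IP.W_finite m).toFinset, ∑ t ∈ (IP.W_finite k).toFinset,
        v σ * (w t * ind01 (TJ m k (GJ m (Finsupp.single σ 1) (Finsupp.single t 1)))) := by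
    intro v w hv hw
    conv_lhs => rw [Sup_expand hv, Sup_expand hw]
    rw [map_sum (GJ m), LinearMap.sum_apply, map_sum (TJ m k), map_sum ind01]
    refine sum_congr rfl fun σ _ => ?_
    rw [map_smul, LinearMap.smul_apply, map_sum, map_smul, map_sum, map_smul, map_sum, smul_eq_mul,
      mul_sum]
    refine sum_congr rfl fun t _ => ?_
    rw [map_smul, map_smul, map_smul, smul_eq_mul]
  have hT : ∀ n N, (IP.T n 0 ^ N) (Finsupp.single (IP.bot n) (1 : ℝ)) ∈ IP.Sup (IP.W n) :=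
    fun n N => IP.PG.T_pow_Sup n 0 _ (hb n)
  have h2 : Tendsto (fun N : ℕ => pX2 m k (2 * (N : ℤ) + 2 * m) (2 * (N : ℤ) + 1)) atTop
      (𝓝 (ind01 (TJ m k (GJ m (IP.P m 0) (IP.P k 0))))) := by
    rw [hexp (IP.P_Sup m 0) (IP.P_Sup k 0)]
    have e : (fun N : ℕ => pX2 m k (2 * (N : ℤ) + 2 * m) (2 * (N : ℤ) + 1)) = fun N =>
        ∑ σ ∈ (IP.W_finite m).toFinset, ∑ t ∈ (IP.W_finite k).toFinset,
          ((IP.T m 0 ^ (N + 1)) (Finsupp.single (IP.bot m) 1)) σ *
          (((IP.T k 0 ^ N) (Finsupp.single (IP.bot k) 1)) t *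
            ind01 (TJ m k (GJ m (Finsupp.single σ 1) (Finsupp.single t 1)))) := by
      funext N
      rw [pX2_lawJ, ← hexp (hT m (N + 1)) (hT k N),
        show 2 * (N : ℤ) + 2 * m - 2 * m + 1 = 2 * N + 1 by ring, law_upper, law_lower]
    rw [e]
    refine tendsto_finsetSum _ fun σ _ => tendsto_finsetSum _ fun t _ => ?_
    exact ((IP.Slit.T_pow_tendsto m σ).comp (tendsto_add_atTop_nat 1)).mul
      ((IP.Slit.T_pow_tendsto k t).mul tendsto_const_nhds)
  have h3 : Tendsto (fun N : ℕ => pX m k ((2 * N + 2 * m + 1 : ℕ) : ℤ)) atTop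
      (𝓝 (ind01 (TJ m k (GJ m (IP.P m 0) (IP.P k 0))))) := by
    have h4 : Tendsto (fun N : ℕ => pX2 m k (2 * ((N + (m + 1) : ℕ) : ℤ) + 2 * m)
        (2 * ((N + (m + 1) : ℕ) : ℤ) + 1)) atTop (𝓝 (ind01 (TJ m k (GJ m (IP.P m 0) (IP.P k 0))))) :=
      h2.comp (tendsto_add_atTop_nat (m + 1))
    refine tendsto_of_tendsto_of_tendsto_of_le_of_le' h2 h4 ?_ ?_
    · filter_upwards [eventually_ge_atTop (k + 1)] with N hN
      rw [pX_eq m k (by push_cast; omega) (by push_cast; omega)]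
      exact pX2_mono (by push_cast; omega) (by push_cast; omega)
    · filter_upwards [eventually_ge_atTop (k + 1)] with N hN
      rw [pX_eq m k (by push_cast; omega) (by push_cast; omega)]
      exact pX2_mono (by push_cast; omega) (by push_cast; omega)
  have hmono : Monotone (fun M : ℕ => pX m k (M : ℤ)) := by
    intro M M' hM
    exact pX_mono (by exact_mod_cast hM)
  have hsub : Tendsto (fun N : ℕ => 2 * N + 2 * m + 1) atTop atTop :=
    tendsto_atTop_mono (fun N => by simp only [id]; omega) tendsto_id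
  rw [tendsto_iff_tendsto_subseq_of_monotone hmono hsub]
  exact h3

end H47Perc.LN
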