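import Pool.Agent.Helper45.LGeo.LawB

/-!
The corner rectangle of the L-shaped corridor in the J-frame: site 0 is the right wall of the lower leg,
the sites `1, ..., m` are the sites of the lower leg, the next ones are the sites of the right leg, the wall
is the top wall.  The rows are added from the bottom to the top, each one from the right to the left.
-/

set_option autoImplicit false

namespace H47Perc.LN
open Finset H47Perc.DS H47Perc.SL H47Perc.JJ

/-- the sites of the right leg -/
def rp (m k t : ℕ) (i : ℕ) : ℤ × ℤ :=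
  if i + t ≤ m + k then ((t : ℤ) + i, 2 * (m : ℤ) - t - i) else ((m : ℤ) + k + 1, (m : ℤ) - k - 1)

/-- the front before the row `2t` -/
def jf (m k t : ℕ) (i : ℕ) : ℤ × ℤ :=
  if i = 0 then wal m else if i ≤ m then ((i : ℤ) + t, (i : ℤ) - 1 - t) else rp m k t i

/-- the front after the row `2t` -/
def hf (m k t : ℕ) (i : ℕ) : ℤ × ℤ :=
  if i = 0 then wal m else if i ≤ m then ((i : ℤ) + t, (i : ℤ) - 2 - t) else rp m k t i

/-- the front after the row `2t+1` -/
def nf (m k t : ℕ) (i : ℕ) : ℤ × ℤ :=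
  if i = 0 then wal m else if i = 1 then (1 + (t : ℤ), -1 - (t : ℤ)) else
    if i ≤ m + 1 then ((i : ℤ) + t, (i : ℤ) - 3 - t) else rp m k t i

lemma rp_sum (m k t i : ℕ) : (rp m k t i).1 + (rp m k t i).2 = 2 * m := by
  unfold rp
  split_ifs <;> simp only <;> ring

lemma jf_le {m k t i : ℕ} (h1 : 1 ≤ i) (h : i ≤ m) : jf m k t i = ((i : ℤ) + t, (i : ℤ) - 1 - t) := by
  unfold jf
  rw [if_neg (by omega), if_pos h]
lemma jf_gt {m k t i : ℕ} (h : m < i) : jf m k t i = rp m k t i := by
  unfold jf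
  rw [if_neg (by omega), if_neg (by omega)]
lemma hf_gt {m k t i : ℕ} (h : m < i) : hf m k t i = rp m k t i := by
  unfold hf
  rw [if_neg (by omega), if_neg (by omega)]
lemma hf_le {m k t i : ℕ} (ht : t ≤ k) (h1 : 1 ≤ i) (h : i ≤ m + 1) :
    hf m k t i = ((i : ℤ) + t, (i : ℤ) - 2 - t) := by
  by_cases hi : i ≤ m
  · unfold hf
    rw [if_neg (by omega), if_pos hi]
  · rw [hf_gt (by omega)]
    unfold rp
    split_ifs
    · ext <;> simp only <;> omega
    · ext <;> simp only <;> omega
lemma nf_le {m k t i : ℕ} (h1 : 2 ≤ i) (h : i ≤ m + 1) : nf m k t i = ((i : ℤ) + t, (i : ℤ) - 3 - t) := by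
  unfold nf
  rw [if_neg (by omega), if_neg (by omega), if_pos h]
lemma nf_gt {m k t i : ℕ} (h1 : 2 ≤ i) (h : m + 1 < i) : nf m k t i = rp m k t i := by
  unfold nf
  rw [if_neg (by omega), if_neg (by omega), if_neg (by omega)]
lemma jf_zero (m k t : ℕ) : jf m k t 0 = wal m := if_pos rfl
lemma hf_zero (m k t : ℕ) : hf m k t 0 = wal m := if_pos rfl
lemma nf_zero (m k t : ℕ) : nf m k t 0 = wal m := if_pos rfl

/-- the base relation is trivial in the interior of the rectangle -/
def Free (m : ℕ) (B : Setoid (ℤ × ℤ)) : Prop :=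
  ∀ z : ℤ × ℤ, z.1 + z.2 < 2 * m → 2 ≤ z.1 - z.2 → ∀ z', B z z' → z' = z

lemma wal_level (m : ℕ) : (wal m).1 - (wal m).2 = -1 := by
  unfold wal
  simp only
  ring

lemma admJ1 {m k t : ℕ} (ht : t ≤ k) {B : Setoid (ℤ × ℤ)} (hB : Free m B) {F : Finset (Sym2 (ℤ × ℤ))}
    (hF : ∀ u v, s(u, v) ∈ F → u.1 - u.2 ≤ 2 * t + 1) :
    AdmD B (jf m k t) (hf m k t) 2 (2 + 2 * m) F where
  h3 := by
    intro r h1 h2 h
    unfold edD at h
    rw [Sym2.eq_swap] at h
    have := hF _ _ h
    rw [hf_le ht (by omega) (by omega)] at this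
    simp only at this
    omega
  h3' := by
    intro r r' h1 h2 h1' h2' hne he
    unfold edD at he
    rw [jf_le (by omega) (by omega), jf_le (by omega) (by omega), hf_le ht (by omega) (by omega),
      hf_le ht (by omega) (by omega), Sym2.eq_iff, Prod.mk.injEq, Prod.mk.injEq, Prod.mk.injEq,
      Prod.mk.injEq] at he
    omega
  h4 := by
    intro j h1 h2
    rw [hf_le ht (by omega) (by omega)]
    refine ⟨?_, ?_, ?_, ?_⟩
    · intro u h
      have := hF _ _ h
      simp only at this
      omega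
    · intro z hz
      exact hB _ (by simp only; omega) (by simp only; omega) z hz
    · intro i hi h
      by_cases h3 : i ≤ m
      · rw [hf_le ht (by omega) (by omega), Prod.mk.injEq] at h
        omega
      · rw [hf_gt (by omega)] at h
        have := rp_sum m k t i
        rw [h] at this
        simp only at this
        omega
    · intro i h
      by_cases h0 : i = 0
      · subst h0
        rw [jf_zero] at h
        have := wal_level m
        rw [h] at this
        simp only at this
        omega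
      · by_cases h3 : i ≤ m
        · rw [jf_le (by omega) h3, Prod.mk.injEq] at h
          omega
        · rw [jf_gt (by omega)] at h
          have := rp_sum m k t i
          rw [h] at this
          simp only at this
          omega

lemma admJ2 {m k t : ℕ} (ht : t < k) {B : Setoid (ℤ × ℤ)} (hB : Free m B) {F : Finset (Sym2 (ℤ × ℤ))}
    (hF : ∀ u v, s(u, v) ∈ F → u.1 - u.2 ≤ 2 * t + 2) :
    AdmD B (hf m k t) (nf m k t) 3 (3 + 2 * m) F where
  h3 := by
    intro r h1 h2 h
    unfold edD at h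
    rw [Sym2.eq_swap] at h
    have := hF _ _ h
    rw [nf_le (by omega) (by omega)] at this
    simp only at this
    omega
  h3' := by
    intro r r' h1 h2 h1' h2' hne he
    unfold edD at he
    rw [hf_le ht.le (by omega) (by omega), hf_le ht.le (by omega) (by omega), nf_le (by omega) (by omega),
      nf_le (by omega) (by omega), Sym2.eq_iff, Prod.mk.injEq, Prod.mk.injEq, Prod.mk.injEq,
      Prod.mk.injEq] at he
    omega
  h4 := by
    intro j h1 h2
    rw [nf_le (by omega) (by omega)]
    refine ⟨?_, ?_, ?_, ?_⟩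
    · intro u h
      have := hF _ _ h
      simp only at this
      omega
    · intro z hz
      exact hB _ (by simp only; omega) (by simp only; omega) z hz
    · intro i hi h
      by_cases h3 : i ≤ m + 1
      · rw [nf_le (by omega) (by omega), Prod.mk.injEq] at h
        omega
      · rw [nf_gt (by omega) (by omega)] at h
        have := rp_sum m k t i
        rw [h] at this
        simp only at this
        omega
    · intro i h
      by_cases h0 : i = 0
      · subst h0
        rw [hf_zero] at h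
        have := wal_level m
        rw [h] at this
        simp only at this
        omega
      · by_cases h3 : i ≤ m + 1
        · rw [hf_le ht.le (by omega) h3, Prod.mk.injEq] at h
          omega
        · rw [hf_gt (by omega)] at h
          have := rp_sum m k t i
          rw [h] at this
          simp only at this
          omega

lemma stgJ1_start (m k t : ℕ) : stgD (jf m k t) (hf m k t) (2 + 2 * m) = jf m k t := by
  funext i
  unfold stgD
  by_cases h : 2 + 2 * m ≤ 2 * i
  · rw [if_pos h, hf_gt (by omega), jf_gt (by omega)]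
  · rw [if_neg h]

lemma stgJ1_end (m k t : ℕ) : stgD (jf m k t) (hf m k t) 2 = hf m k t := by
  funext i
  unfold stgD
  by_cases h : 2 ≤ 2 * i
  · rw [if_pos h]
  · rw [if_neg h, show i = 0 by omega, jf_zero, hf_zero]

lemma stgJ2_start (m k t : ℕ) : stgD (hf m k t) (nf m k t) (3 + 2 * m) = hf m k t := by
  funext i
  unfold stgD
  by_cases h : 3 + 2 * m ≤ 2 * i
  · rw [if_pos h, nf_gt (by omega) (by omega), hf_gt (by omega)]
  · rw [if_neg h]

lemma stgJ2_end {m k t : ℕ} (ht : t < k) : stgD (hf m k t) (nf m k t) 3 = nf m k t := by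
  funext i
  unfold stgD
  by_cases h : 3 ≤ 2 * i
  · rw [if_pos h]
  · rw [if_neg h]
    by_cases h0 : i = 0
    · rw [h0, hf_zero, nf_zero]
    · rw [show i = 1 by omega, hf_le ht.le le_rfl (by omega)]
      unfold nf
      rw [if_neg (by omega), if_pos rfl]
      ext <;> simp

lemma nf_skip (m k t i : ℕ) : jf m k (t + 1) i = nf m k t (IP.skip 1 i) := by
  by_cases h0 : i = 0
  · subst h0
    rw [jf_zero, show IP.skip 1 0 = 0 by rfl, nf_zero]
  · have e : IP.skip 1 i = i + 1 := by
      unfold IP.skip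
      rw [if_neg (by omega)]
    rw [e]
    by_cases h : i ≤ m
    · rw [jf_le (by omega) h, nf_le (by omega) (by omega)]
      ext <;> simp only <;> push_cast <;> ring
    · rw [jf_gt (by omega), nf_gt (by omega) (by omega)]
      unfold rp
      by_cases h3 : i + (t + 1) ≤ m + k
      · rw [if_pos h3, if_pos (by omega)]
        ext <;> simp only <;> push_cast <;> ring
      · rw [if_neg h3, if_neg (by omega)]

/-! ### the edges -/

lemma imJ1 {m k t : ℕ} (ht : t ≤ k) : (Ico 2 (2 + 2 * m)).image (edD (jf m k t) (hf m k t)) =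
    edgesIn (rl m (2 * t + 1) (2 * t + 2)) := by
  ext e
  constructor
  · intro h
    rw [mem_image] at h
    obtain ⟨r, hr, rfl⟩ := h
    rw [mem_Ico] at hr
    unfold edD
    rw [jf_le (by omega) (by omega), hf_le ht (by omega) (by omega), mem_edgesIn, mem_rl, mem_rl]
    simp only
    refine ⟨by omega, by omega, ?_⟩
    rcases Nat.even_or_odd' r with ⟨j, hj | hj⟩
    · left
      simp only
      have e1 : ((r / 2 : ℕ) : ℤ) = j := by omega
      have e2 : (((r + 1) / 2 : ℕ) : ℤ) = j := by omega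
      rw [e1, e2]
      refine ⟨rfl, ?_⟩
      rw [show (j:ℤ) - 1 - t - (j - 2 - t) = 1 by ring]
      simp
    · right
      simp only
      have e1 : ((r / 2 : ℕ) : ℤ) = j := by omega
      have e2 : (((r + 1) / 2 : ℕ) : ℤ) = j + 1 := by omega
      rw [e1, e2]
      refine ⟨by ring, ?_⟩
      rw [show (j:ℤ) + t - (j + 1 + t) = -1 by ring]
      simp
  · intro h
    rw [mem_image]
    rcases edge_cases h with ⟨x, y, rfl⟩ | ⟨x, y, rfl⟩
    · rw [hE_mem, mem_rl, mem_rl] at h
      simp only at h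
      obtain ⟨j, hj⟩ : ∃ j : ℕ, x + y = 2 * (j:ℤ) - 1 := ⟨((x + y + 1) / 2).toNat, by omega⟩
      have hj1 : 1 ≤ j := by omega
      refine ⟨2 * j + 1, by rw [mem_Ico]; omega, ?_⟩
      unfold edD hE
      rw [show (2 * j + 1) / 2 = j by omega, show (2 * j + 1 + 1) / 2 = j + 1 by omega,
        jf_le (by omega) (by omega), hf_le ht (by omega) (by omega)]
      have e1 : (j:ℤ) + t = x := by omega
      have e2 : (j:ℤ) - 1 - t = y := by omega
      have e3 : ((j + 1 : ℕ):ℤ) + t = x + 1 := by omega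
      have e4 : ((j + 1 : ℕ):ℤ) - 2 - t = y := by omega
      rw [e1, e2, e3, e4]
    · rw [vE_mem, mem_rl, mem_rl] at h
      simp only at h
      obtain ⟨j, hj⟩ : ∃ j : ℕ, x + y + 2 = 2 * (j:ℤ) := ⟨((x + y + 2) / 2).toNat, by omega⟩
      have hj1 : 1 ≤ j := by omega
      refine ⟨2 * j, by rw [mem_Ico]; omega, ?_⟩
      unfold edD vE
      rw [show (2 * j) / 2 = j by omega, show (2 * j + 1) / 2 = j by omega,
        jf_le (by omega) (by omega), hf_le ht (by omega) (by omega), Sym2.eq_swap]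
      have e1 : (j:ℤ) + t = x := by omega
      have e2 : (j:ℤ) - 1 - t = y + 1 := by omega
      have e4 : (j:ℤ) - 2 - t = y := by omega
      rw [e1, e2, e4]

lemma imJ2 {m k t : ℕ} (ht : t < k) : (Ico 3 (3 + 2 * m)).image (edD (hf m k t) (nf m k t)) =
    edgesIn (rl m (2 * t + 2) (2 * t + 3)) := by
  ext e
  constructor
  · intro h
    rw [mem_image] at h
    obtain ⟨r, hr, rfl⟩ := h
    rw [mem_Ico] at hr
    unfold edD
    rw [hf_le ht.le (by omega) (by omega), nf_le (by omega) (by omega), mem_edgesIn, mem_rl, mem_rl]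
    simp only
    refine ⟨by omega, by omega, ?_⟩
    rcases Nat.even_or_odd' r with ⟨j, hj | hj⟩
    · left
      simp only
      have e1 : ((r / 2 : ℕ) : ℤ) = j := by omega
      have e2 : (((r + 1) / 2 : ℕ) : ℤ) = j := by omega
      rw [e1, e2]
      refine ⟨rfl, ?_⟩
      rw [show (j:ℤ) - 2 - t - (j - 3 - t) = 1 by ring]
      simp
    · right
      simp only
      have e1 : ((r / 2 : ℕ) : ℤ) = j := by omega
      have e2 : (((r + 1) / 2 : ℕ) : ℤ) = j + 1 := by omega
      rw [e1, e2]
      refine ⟨by ring, ?_⟩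
      rw [show (j:ℤ) + t - (j + 1 + t) = -1 by ring]
      simp
  · intro h
    rw [mem_image]
    rcases edge_cases h with ⟨x, y, rfl⟩ | ⟨x, y, rfl⟩
    · rw [hE_mem, mem_rl, mem_rl] at h
      simp only at h
      obtain ⟨j, hj⟩ : ∃ j : ℕ, x + y + 2 = 2 * (j:ℤ) := ⟨((x + y + 2) / 2).toNat, by omega⟩
      have hj1 : 1 ≤ j := by omega
      refine ⟨2 * j + 1, by rw [mem_Ico]; omega, ?_⟩
      unfold edD hE
      rw [show (2 * j + 1) / 2 = j by omega, show (2 * j + 1 + 1) / 2 = j + 1 by omega,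
        hf_le ht.le (by omega) (by omega), nf_le (by omega) (by omega)]
      have e1 : (j:ℤ) + t = x := by omega
      have e2 : (j:ℤ) - 2 - t = y := by omega
      have e3 : ((j + 1 : ℕ):ℤ) + t = x + 1 := by omega
      have e4 : ((j + 1 : ℕ):ℤ) - 3 - t = y := by omega
      rw [e1, e2, e3, e4]
    · rw [vE_mem, mem_rl, mem_rl] at h
      simp only at h
      obtain ⟨j, hj⟩ : ∃ j : ℕ, x + y + 3 = 2 * (j:ℤ) := ⟨((x + y + 3) / 2).toNat, by omega⟩
      have hj1 : 2 ≤ j := by omega
      refine ⟨2 * j, by rw [mem_Ico]; omega, ?_⟩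
      unfold edD vE
      rw [show (2 * j) / 2 = j by omega, show (2 * j + 1) / 2 = j by omega,
        hf_le ht.le (by omega) (by omega), nf_le (by omega) (by omega), Sym2.eq_swap]
      have e1 : (j:ℤ) + t = x := by omega
      have e2 : (j:ℤ) - 2 - t = y + 1 := by omega
      have e4 : (j:ℤ) - 3 - t = y := by omega
      rw [e1, e2, e4]

lemma rl_step (m : ℕ) {b : ℤ} (hb : 1 ≤ b) :
    edgesIn (rl m 1 b) ∪ edgesIn (rl m b (b + 1)) = edgesIn (rl m 1 (b + 1)) := by
  ext e
  rw [mem_union]
  induction e using Sym2.ind with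
  | _ u v =>
    rw [mem_edgesIn, mem_edgesIn, mem_edgesIn, mem_rl, mem_rl, mem_rl, mem_rl, mem_rl, mem_rl]
    constructor
    · rintro (⟨h1, h2, h3⟩ | ⟨h1, h2, h3⟩)
      · exact ⟨by omega, by omega, h3⟩
      · exact ⟨by omega, by omega, h3⟩
    · rintro ⟨h1, h2, h3⟩
      have h5 := adj_level h3
      by_cases h4 : u.1 - u.2 ≤ b ∧ v.1 - v.2 ≤ b
      · exact Or.inl ⟨by omega, by omega, h3⟩
      · exact Or.inr ⟨by omega, by omega, h3⟩

lemma rl_one (m : ℕ) : edgesIn (rl m 1 1) = ∅ := by
  rw [Finset.eq_empty_iff_forall_notMem]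
  intro e
  induction e using Sym2.ind with
  | _ u v =>
    rw [mem_edgesIn, mem_rl, mem_rl]
    rintro ⟨h1, h2, h3⟩
    have h5 := adj_level h3
    omega

lemma rl_level {m : ℕ} {b : ℤ} {u v : ℤ × ℤ} (h : s(u, v) ∈ edgesIn (rl m 1 b)) : u.1 - u.2 ≤ b := by
  rw [mem_edgesIn, mem_rl, mem_rl] at h
  omega

/-! ### the sweeps -/

/-- the sweep of one row -/
noncomputable def rw0 (off m : ℕ) : IP.M →ₗ[ℝ] IP.M := IP.row off (fun _ => 0) m

/-- two rows and the left cap -/
noncomputable def RW (m : ℕ) : IP.M →ₗ[ℝ] IP.M := IP.De 2 ∘ₗ rw0 3 (2 * m) ∘ₗ rw0 2 (2 * m)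

lemma sweepJ1 {m k t : ℕ} (ht : t ≤ k) {B : Setoid (ℤ × ℤ)} (hB : Free m B) :
    rw0 2 (2 * m) (lawB B (edgesIn (rl m 1 (2 * t + 1))) (jf m k t)) =
      lawB B (edgesIn (rl m 1 (2 * t + 2))) (hf m k t) := by
  have h := sweepD (2 * m) (admJ1 (k := k) ht hB (F := edgesIn (rl m 1 (2 * t + 1)))
    (fun u v h => rl_level h))
  rw [stgJ1_start, stgJ1_end, imJ1 ht] at h
  have e1 : (2 : ℤ) * t + 2 = 2 * t + 1 + 1 := by ring
  rw [e1, rl_step m (by omega), ← e1] at h
  exact h.symm

lemma sweepJ2 {m k t : ℕ} (ht : t < k) {B : Setoid (ℤ × ℤ)} (hB : Free m B) :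
    rw0 3 (2 * m) (lawB B (edgesIn (rl m 1 (2 * t + 2))) (hf m k t)) =
      lawB B (edgesIn (rl m 1 (2 * t + 3))) (nf m k t) := by
  have h := sweepD (2 * m) (admJ2 (k := k) ht hB (F := edgesIn (rl m 1 (2 * t + 2)))
    (fun u v h => rl_level h))
  rw [stgJ2_start, stgJ2_end ht, imJ2 ht] at h
  have e1 : (2 : ℤ) * t + 3 = 2 * t + 2 + 1 := by ring
  rw [e1, rl_step m (by omega), ← e1] at h
  exact h.symm

lemma RW_step {m k t : ℕ} (ht : t < k) {B : Setoid (ℤ × ℤ)} (hB : Free m B) :
    RW m (lawB B (edgesIn (rl m 1 (2 * t + 1))) (jf m k t)) =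
      lawB B (edgesIn (rl m 1 (2 * (t + 1 : ℕ) + 1))) (jf m k (t + 1)) := by
  unfold RW
  rw [LinearMap.comp_apply, LinearMap.comp_apply, sweepJ1 ht.le hB, sweepJ2 ht hB]
  have h := lawB_del (B := B) (F := edgesIn (rl m 1 (2 * t + 3))) (f := nf m k t) (k := 1)
    (g := jf m k (t + 1)) (nf_skip m k t)
  rw [mul_one] at h
  rw [h]
  push_cast
  rw [show (2 : ℤ) * (t + 1) + 1 = 2 * t + 3 by ring]

/-- **The law of the front above the rectangle.** -/
theorem lawJ (m k : ℕ) {B : Setoid (ℤ × ℤ)} (hB : Free m B) :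
    lawB B (edgesIn (rl m 1 (2 * k + 2))) (hf m k k) =
      rw0 2 (2 * m) ((RW m ^ k) (Finsupp.single (Setoid.comap (jf m k 0) B) 1)) := by
  have key : ∀ t ≤ k, (RW m ^ t) (Finsupp.single (Setoid.comap (jf m k 0) B) 1) =
      lawB B (edgesIn (rl m 1 (2 * t + 1))) (jf m k t) := by
    intro t
    induction t with
    | zero =>
      intro _
      rw [pow_zero, Nat.cast_zero, mul_zero, zero_add, rl_one, lawB_empty]
      rfl
    | succ t ih =>
      intro ht
      rw [pow_succ', Module.End.mul_apply, ih (by omega), RW_step (by omega) hB]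
  rw [key k le_rfl, sweepJ1 le_rfl hB]

end H47Perc.LN
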