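import Pool.Agent.Helper45.LGeo.Geo

/-!
Laws of states over a general base relation, sweeps from the right to the left.
-/

set_option autoImplicit false

namespace H47Perc.LN
open Finset H47Perc.DS H47Perc.SL H47Perc.JJ

/-- connectivity: the relation `B` together with the edges of `ω` -/
def cB (B : Setoid (ℤ × ℤ)) (ω : Finset (Sym2 (ℤ × ℤ))) : Setoid (ℤ × ℤ) := B ⊔ cs ∅ ω

lemma cB_base {B : Setoid (ℤ × ℤ)} {ω : Finset (Sym2 (ℤ × ℤ))} {u v : ℤ × ℤ} (h : B u v) :
    cB B ω u v := (le_sup_left : B ≤ cB B ω) h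

lemma cB_edge {B : Setoid (ℤ × ℤ)} {ω : Finset (Sym2 (ℤ × ℤ))} {u v : ℤ × ℤ} (h : s(u, v) ∈ ω) :
    cB B ω u v := (le_sup_right : cs ∅ ω ≤ cB B ω) (cs_edge h)

lemma cB_le_iff {B : Setoid (ℤ × ℤ)} {ω : Finset (Sym2 (ℤ × ℤ))} {S : Setoid (ℤ × ℤ)} :
    cB B ω ≤ S ↔ B ≤ S ∧ ∀ u v : ℤ × ℤ, s(u, v) ∈ ω → S u v := by
  unfold cB
  rw [sup_le_iff, cs_le_iff]
  constructor
  · rintro ⟨h1, h2, _⟩
    exact ⟨h1, h2⟩
  · rintro ⟨h1, h2⟩
    exact ⟨h1, h2, fun u v hu _ => absurd hu (Set.notMem_empty u)⟩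

lemma cB_isolated {B : Setoid (ℤ × ℤ)} {ω : Finset (Sym2 (ℤ × ℤ))} {v : ℤ × ℤ}
    (h1 : ∀ u, s(v, u) ∉ ω) (h2 : ∀ z, B v z → z = v) {u : ℤ × ℤ} (h : cB B ω v u) : u = v :=
  sup_isolated h2 (fun _ hz => cs_isolated h1 (Set.notMem_empty v) hz) u h

lemma cB_mono {B : Setoid (ℤ × ℤ)} {ω ω' : Finset (Sym2 (ℤ × ℤ))} (h : ω ⊆ ω') :
    cB B ω ≤ cB B ω' := by
  rw [cB_le_iff]
  exact ⟨fun {u v} h' => cB_base h', fun u v h' => cB_edge (h h')⟩

lemma cB_empty (B : Setoid (ℤ × ℤ)) : cB B ∅ = B := by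
  apply le_antisymm
  · rw [cB_le_iff]
    exact ⟨le_rfl, fun u v h => absurd h (Finset.notMem_empty _)⟩
  · exact le_sup_left

lemma cB_insert (B : Setoid (ℤ × ℤ)) (ω : Finset (Sym2 (ℤ × ℤ))) (u v : ℤ × ℤ) :
    cB B (insert s(u, v) ω) = joinG u v (cB B ω) := by
  apply le_antisymm
  · rw [cB_le_iff]
    constructor
    · intro x y h
      exact Or.inl (cB_base h)
    · intro x y h
      rw [mem_insert, Sym2.eq_iff] at h
      rcases h with (⟨rfl, rfl⟩ | ⟨rfl, rfl⟩) | h
      · exact Or.inr (Or.inl ⟨(cB B ω).refl _, (cB B ω).refl _⟩)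
      · exact Or.inr (Or.inr ⟨(cB B ω).refl _, (cB B ω).refl _⟩)
      · exact Or.inl (cB_edge h)
  · have hm : cB B ω ≤ cB B (insert s(u, v) ω) := cB_mono (subset_insert _ _)
    have he : cB B (insert s(u, v) ω) u v := cB_edge (mem_insert_self _ _)
    rw [Setoid.le_def]
    rintro x y (h | ⟨h1, h2⟩ | ⟨h1, h2⟩)
    · exact hm h
    · exact Setoid.trans' _ (hm h1) (Setoid.trans' _ he (hm h2))
    · exact Setoid.trans' _ (hm h1) (Setoid.trans' _ (Setoid.symm' _ he) (hm h2))

/-- the state of the configuration seen from the front `f` -/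
def stB (B : Setoid (ℤ × ℤ)) (f : ℕ → ℤ × ℤ) (ω : Finset (Sym2 (ℤ × ℤ))) : IP.St :=
  Setoid.comap f (cB B ω)

/-- the law of the state, the edges of `F` being open with probability `1/2` -/
noncomputable def lawB (B : Setoid (ℤ × ℤ)) (F : Finset (Sym2 (ℤ × ℤ))) (f : ℕ → ℤ × ℤ) : IP.M :=
  ∑ ω ∈ F.powerset, Finsupp.single (stB B f ω) ((1 / 2) ^ #F)

lemma stB_rel {B : Setoid (ℤ × ℤ)} {f : ℕ → ℤ × ℤ} {ω : Finset (Sym2 (ℤ × ℤ))} {x y : ℕ} :
    stB B f ω x y ↔ cB B ω (f x) (f y) := Iff.rfl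

lemma lawB_empty (B : Setoid (ℤ × ℤ)) (f : ℕ → ℤ × ℤ) :
    lawB B ∅ f = Finsupp.single (Setoid.comap f B) 1 := by
  unfold lawB stB
  rw [powerset_empty, sum_singleton, cB_empty, card_empty, pow_zero]

lemma stB_join (B : Setoid (ℤ × ℤ)) (f : ℕ → ℤ × ℤ) (ω : Finset (Sym2 (ℤ × ℤ))) (j k : ℕ) :
    stB B f (insert s(f j, f k) ω) = IP.join j k (stB B f ω) := by
  unfold stB
  rw [cB_insert]
  rfl

lemma stB_detach {B : Setoid (ℤ × ℤ)} {f : ℕ → ℤ × ℤ} {ω : Finset (Sym2 (ℤ × ℤ))} {k : ℕ} {v : ℤ × ℤ}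
    (h1 : ∀ u, s(v, u) ∉ ω) (h2 : ∀ z, B v z → z = v) (h3 : ∀ j, j ≠ k → f j ≠ v) :
    stB B (Function.update f k v) ω = IP.detach k (stB B f ω) := by
  ext x y
  rw [stB_rel]
  change _ ↔ x = y ∨ (x ≠ k ∧ y ≠ k ∧ cB B ω (f x) (f y))
  by_cases hx : x = k
  · subst hx
    by_cases hy : y = x
    · subst hy
      simp only [Function.update_self, true_or, iff_true]
      exact (cB B ω).refl _
    · rw [Function.update_self, Function.update_of_ne hy]
      constructor
      · intro h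
        exact absurd (cB_isolated h1 h2 h) (h3 y hy)
      · rintro (h | ⟨h, _⟩)
        · exact absurd h.symm hy
        · exact absurd rfl h
  · by_cases hy : y = k
    · subst hy
      rw [Function.update_self, Function.update_of_ne hx]
      constructor
      · intro h
        exact absurd (cB_isolated h1 h2 (Setoid.symm' _ h)) (h3 x hx)
      · rintro (h | ⟨_, h, _⟩)
        · exact absurd h hx
        · exact absurd rfl h
    · rw [Function.update_of_ne hx, Function.update_of_ne hy]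
      constructor
      · intro h
        exact Or.inr ⟨hx, hy, h⟩
      · rintro (h | ⟨_, _, h⟩)
        · rw [h]
        · exact h

lemma stB_move {B : Setoid (ℤ × ℤ)} {f : ℕ → ℤ × ℤ} {ω : Finset (Sym2 (ℤ × ℤ))} {k : ℕ} {v : ℤ × ℤ}
    (h1 : ∀ u, s(v, u) ∉ ω) (h2 : ∀ z, B v z → z = v) (h3 : ∀ j, f j ≠ v) :
    stB B (Function.update f k v) (insert s(f k, v) ω) = stB B f ω := by
  have hiso : ∀ x, cB B ω v (f x) → False := fun x h => h3 x (cB_isolated h1 h2 h)
  have key : ∀ a b, joinG (f k) v (cB B ω) a b ↔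
      cB B ω a b ∨ (cB B ω a (f k) ∧ cB B ω v b) ∨ (cB B ω a v ∧ cB B ω (f k) b) :=
    fun _ _ => Iff.rfl
  ext x y
  rw [stB_rel, stB_rel, cB_insert, key]
  by_cases hx : x = k
  · subst hx
    by_cases hy : y = x
    · subst hy
      simp only [Function.update_self]
      exact ⟨fun _ => (cB B ω).refl _, fun _ => Or.inl ((cB B ω).refl _)⟩
    · rw [Function.update_self, Function.update_of_ne hy]
      constructor
      · rintro (h | ⟨_, h⟩ | ⟨_, h⟩)
        · exact (hiso _ h).elim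
        · exact (hiso _ h).elim
        · exact h
      · intro h
        exact Or.inr (Or.inr ⟨(cB B ω).refl _, h⟩)
  · by_cases hy : y = k
    · subst hy
      rw [Function.update_self, Function.update_of_ne hx]
      constructor
      · rintro (h | ⟨h, _⟩ | ⟨h, _⟩)
        · exact (hiso _ (Setoid.symm' _ h)).elim
        · exact h
        · exact (hiso _ (Setoid.symm' _ h)).elim
      · intro h
        exact Or.inr (Or.inl ⟨h, (cB B ω).refl _⟩)
    · rw [Function.update_of_ne hx, Function.update_of_ne hy]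
      constructor
      · rintro (h | ⟨_, h⟩ | ⟨h, _⟩)
        · exact h
        · exact (hiso _ h).elim
        · exact (hiso _ (Setoid.symm' _ h)).elim
      · exact fun h => Or.inl h

/-! ### the moves on laws -/

lemma E_lawB (i : ℕ) (B : Setoid (ℤ × ℤ)) (F : Finset (Sym2 (ℤ × ℤ))) (f : ℕ → ℤ × ℤ) :
    IP.E i (lawB B F f) =
      ∑ ω ∈ F.powerset, Finsupp.single (IP.act i (stB B f ω)) ((1 / 2) ^ #F) := by
  unfold lawB IP.E
  rw [map_sum]
  apply sum_congr rfl
  intro ω _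
  rw [Finsupp.lmapDomain_apply, Finsupp.mapDomain_single]

lemma half_lawB (B : Setoid (ℤ × ℤ)) (F : Finset (Sym2 (ℤ × ℤ))) (f : ℕ → ℤ × ℤ) :
    (1 / 2 : ℝ) • lawB B F f =
      ∑ ω ∈ F.powerset, Finsupp.single (stB B f ω) ((1 / 2) ^ (#F + 1)) := by
  unfold lawB
  rw [smul_sum]
  apply sum_congr rfl
  intro ω _
  rw [Finsupp.smul_single, smul_eq_mul, pow_succ, mul_comm]

lemma lawB_insert {B : Setoid (ℤ × ℤ)} {F : Finset (Sym2 (ℤ × ℤ))} {e : Sym2 (ℤ × ℤ)} (he : e ∉ F)
    (f : ℕ → ℤ × ℤ) : lawB B (insert e F) f =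
      ∑ ω ∈ F.powerset, Finsupp.single (stB B f ω) ((1 / 2) ^ (#F + 1)) +
        ∑ ω ∈ F.powerset, Finsupp.single (stB B f (insert e ω)) ((1 / 2) ^ (#F + 1)) := by
  unfold lawB
  rw [sum_powerset_insert he, card_insert_of_notMem he]

lemma half_E_lawB (i : ℕ) (B : Setoid (ℤ × ℤ)) (F : Finset (Sym2 (ℤ × ℤ))) (f : ℕ → ℤ × ℤ) :
    (1 / 2 : ℝ) • IP.E i (lawB B F f) =
      ∑ ω ∈ F.powerset, Finsupp.single (IP.act i (stB B f ω)) ((1 / 2) ^ (#F + 1)) := by
  rw [E_lawB, smul_sum]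
  apply sum_congr rfl
  intro ω _
  rw [Finsupp.smul_single, smul_eq_mul, pow_succ, mul_comm]

lemma lawB_join {B : Setoid (ℤ × ℤ)} {F : Finset (Sym2 (ℤ × ℤ))} {f : ℕ → ℤ × ℤ} {k : ℕ}
    (he : s(f k, f (k + 1)) ∉ F) : lawB B (insert s(f k, f (k + 1)) F) f =
      IP.Rt (2 * k + 1) (Real.pi / 6) (lawB B F f) := by
  rw [Rt_half, lawB_insert he, half_lawB, half_E_lawB]
  congr 1
  apply sum_congr rfl
  intro ω _
  rw [stB_join, act_odd']

lemma lawB_detach {B : Setoid (ℤ × ℤ)} {F : Finset (Sym2 (ℤ × ℤ))} {f : ℕ → ℤ × ℤ} {k : ℕ} {v : ℤ × ℤ}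
    (h1 : ∀ u, s(v, u) ∉ F) (h2 : ∀ z, B v z → z = v) (h3 : ∀ j, f j ≠ v) :
    lawB B (insert s(f k, v) F) (Function.update f k v) =
      IP.Rt (2 * k) (Real.pi / 6) (lawB B F f) := by
  have he : s(f k, v) ∉ F := by
    rw [Sym2.eq_swap]
    exact h1 _
  rw [Rt_half, lawB_insert he, half_lawB, half_E_lawB, add_comm]
  congr 1
  · apply sum_congr rfl
    intro ω hω
    rw [mem_powerset] at hω
    rw [stB_move (fun u h => h1 u (hω h)) h2 h3]
  · apply sum_congr rfl
    intro ω hω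
    rw [mem_powerset] at hω
    rw [stB_detach (fun u h => h1 u (hω h)) h2 (fun j _ => h3 j), act_even']

lemma lawB_del {B : Setoid (ℤ × ℤ)} {F : Finset (Sym2 (ℤ × ℤ))} {f g : ℕ → ℤ × ℤ} {k : ℕ}
    (h : ∀ j, g j = f (IP.skip k j)) : IP.De (2 * k) (lawB B F f) = lawB B F g := by
  unfold lawB IP.De
  rw [map_sum]
  apply sum_congr rfl
  intro ω _
  rw [Finsupp.lmapDomain_apply, Finsupp.mapDomain_single, IP.del_even]
  congr 1
  ext x y
  rw [Setoid.comap_rel, stB_rel, stB_rel, h, h]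

/-! ### a sweep from the right to the left -/

/-- the front during a sweep -/
def stgD (a b : ℕ → ℤ × ℤ) (r : ℕ) : ℕ → ℤ × ℤ := fun j => if r ≤ 2 * j then b j else a j

/-- the edges of a sweep -/
def edD (a b : ℕ → ℤ × ℤ) (r : ℕ) : Sym2 (ℤ × ℤ) := s(a (r / 2), b ((r + 1) / 2))

/-- admissible sweeps -/
structure AdmD (B : Setoid (ℤ × ℤ)) (a b : ℕ → ℤ × ℤ) (off top : ℕ) (F : Finset (Sym2 (ℤ × ℤ))) :
    Prop where
  h3 : ∀ r, off ≤ r → r < top → edD a b r ∉ F
  h3' : ∀ r r', off ≤ r → r < top → off ≤ r' → r' < top → r ≠ r' → edD a b r ≠ edD a b r'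
  h4 : ∀ j, off ≤ 2 * j → 2 * j < top → (∀ u, s(b j, u) ∉ F) ∧ (∀ z, B (b j) z → z = b j) ∧
    (∀ k, j < k → b k ≠ b j) ∧ ∀ k, a k ≠ b j

theorem sweepD {B : Setoid (ℤ × ℤ)} {a b : ℕ → ℤ × ℤ} {off : ℕ} (m : ℕ) :
    ∀ {F : Finset (Sym2 (ℤ × ℤ))}, AdmD B a b off (off + m) F →
    lawB B (F ∪ (Ico off (off + m)).image (edD a b)) (stgD a b off) =
      IP.row off (fun _ => 0) m (lawB B F (stgD a b (off + m))) := by
  induction m with
  | zero =>
    intro F _
    simp [IP.row]
  | succ m ih =>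
    intro F h
    have hnew : edD a b (off + m) ∉ F := h.h3 _ (by omega) (by omega)
    have h' : AdmD B a b off (off + m) (insert (edD a b (off + m)) F) := by
      refine ⟨?_, ?_, ?_⟩
      · intro r h1 h2 h3
        rw [mem_insert] at h3
        rcases h3 with h3 | h3
        · exact h.h3' r (off + m) h1 (by omega) (by omega) (by omega) (by omega) h3
        · exact h.h3 r h1 (by omega) h3
      · intro r r' h1 h2 h3 h4
        exact h.h3' r r' h1 (by omega) h3 (by omega)
      · intro j h1 h2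
        obtain ⟨a1, a2, a3, a4⟩ := h.h4 j h1 (by omega)
        refine ⟨?_, a2, a3, a4⟩
        intro u hu
        rw [mem_insert] at hu
        rcases hu with hu | hu
        · unfold edD at hu
          rw [Sym2.eq_iff] at hu
          rcases hu with ⟨hu, _⟩ | ⟨hu, _⟩
          · exact a4 _ hu.symm
          · exact a3 _ (by omega) hu.symm
        · exact a1 u hu
    have e0 : F ∪ (Ico off (off + (m + 1))).image (edD a b) =
        insert (edD a b (off + m)) F ∪ (Ico off (off + m)).image (edD a b) := by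
      have hI : Ico off (off + (m + 1)) = insert (off + m) (Ico off (off + m)) := by
        ext r
        rw [mem_insert, mem_Ico, mem_Ico]
        omega
      rw [hI, image_insert, union_insert, insert_union]
    rw [e0, ih h', IP.row_succ]
    congr 1
    rw [zero_add]
    rcases Nat.even_or_odd' (off + m) with ⟨j, hj | hj⟩
    · obtain ⟨a1, a2, a3, a4⟩ := h.h4 j (by omega) (by omega)
      have e2 : stgD a b (off + m) = Function.update (stgD a b (off + (m + 1))) j (b j) := by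
        funext k
        unfold stgD
        by_cases hk : k = j
        · subst hk
          rw [Function.update_self, if_pos (by omega)]
        · rw [Function.update_of_ne hk]
          by_cases hk2 : off + m ≤ 2 * k
          · rw [if_pos (by omega), if_pos (by omega)]
          · rw [if_neg (by omega), if_neg (by omega)]
      have e3 : edD a b (off + m) = s(stgD a b (off + (m + 1)) j, b j) := by
        unfold edD stgD
        rw [if_neg (by omega), show (off + m) / 2 = j by omega, show (off + m + 1) / 2 = j by omega]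
      rw [e2, e3, hj]
      apply lawB_detach a1 a2
      intro k
      unfold stgD
      by_cases hk : off + (m + 1) ≤ 2 * k
      · rw [if_pos hk]
        exact a3 k (by omega)
      · rw [if_neg hk]
        exact a4 k
    · have e2 : stgD a b (off + m) = stgD a b (off + (m + 1)) := by
        funext k
        unfold stgD
        by_cases hk2 : off + m ≤ 2 * k
        · rw [if_pos (by omega), if_pos (by omega)]
        · rw [if_neg (by omega), if_neg (by omega)]
      have e3 : edD a b (off + m) = s(stgD a b (off + (m + 1)) j, stgD a b (off + (m + 1)) (j + 1)) := by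
        unfold edD stgD
        rw [if_neg (by omega), if_pos (by omega), show (off + m) / 2 = j by omega,
          show (off + m + 1) / 2 = j + 1 by omega]
      rw [e3] at hnew
      rw [e2, e3, hj]
      exact lawB_join hnew

end H47Perc.LN
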